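import Mathlib

/-! Sparse power series modulo `1 - X`: partial sums, supports, Frobenius. -/

open Finset

namespace Pool.Agent.Helper20K9.DC

open PowerSeries

variable {R : Type*} [CommRing R]

/-- partial sums of the coefficients -/
noncomputable def cum (g : R⟦X⟧) (u : ℕ) : R := ∑ j ∈ range (u + 1), coeff j g

lemma cum_eq (g : R⟦X⟧) (u : ℕ) : cum g u = coeff u (g * mk (fun _ => (1 : R))) := by
  rw [coeff_mul, cum, Finset.Nat.sum_antidiagonal_eq_sum_range_succ_mk]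
  simp

lemma cum_mul (g h : R⟦X⟧) (u : ℕ) :
    cum (g * h) u = ∑ p ∈ antidiagonal u, coeff p.1 g * cum h p.2 := by
  rw [cum_eq, mul_assoc, coeff_mul]
  refine Finset.sum_congr rfl fun p _ => ?_
  rw [cum_eq]

lemma cum_add (g h : R⟦X⟧) (u : ℕ) : cum (g + h) u = cum g u + cum h u := by
  simp [cum, Finset.sum_add_distrib]

lemma cum_sub (g h : R⟦X⟧) (u : ℕ) : cum (g - h) u = cum g u - cum h u := by
  simp [cum, Finset.sum_sub_distrib]

lemma cum_C_mul (a : R) (g : R⟦X⟧) (u : ℕ) : cum (C a * g) u = a * cum g u := by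
  simp [cum, Finset.mul_sum, coeff_C_mul]

lemma cum_sum {ι : Type*} (s : Finset ι) (g : ι → R⟦X⟧) (u : ℕ) :
    cum (∑ i ∈ s, g i) u = ∑ i ∈ s, cum (g i) u := by
  simp only [cum, map_sum]
  rw [Finset.sum_comm]

lemma cum_one (u : ℕ) : cum (1 : R⟦X⟧) u = 1 := by
  simp [cum, coeff_one]

/-- the series with prescribed partial sums -/
noncomputable def ser (P : ℕ → R) : R⟦X⟧ := mk fun v => P v - if v = 0 then 0 else P (v - 1)

lemma cum_ser (P : ℕ → R) (u : ℕ) : cum (ser P) u = P u := by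
  induction u with
  | zero => simp [cum, ser]
  | succ u ih =>
    rw [cum, Finset.sum_range_succ, ← cum, ih]
    simp [ser]

lemma coeff_ser_zero (P : ℕ → R) : coeff 0 (ser P) = P 0 := by simp [ser]

lemma coeff_ser_succ (P : ℕ → R) (v : ℕ) : coeff (v + 1) (ser P) = P (v + 1) - P v := by
  simp [ser]

/-- `k`-fold sums of elements of `A` -/
def SS (A : Set ℕ) : ℕ → Set ℕ
  | 0 => {0}
  | k + 1 => {n | ∃ a ∈ A, ∃ b ∈ SS A k, a + b = n}

/-- sums of an element of `B` and an element of `C` -/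
def Pl (B C : Set ℕ) : Set ℕ := {n | ∃ a ∈ B, ∃ b ∈ C, a + b = n}

lemma SS_add {A : Set ℕ} {j k a b : ℕ} (ha : a ∈ SS A j) (hb : b ∈ SS A k) :
    a + b ∈ SS A (j + k) := by
  induction j generalizing a with
  | zero =>
    have : a = 0 := ha
    subst this
    simpa using hb
  | succ j ih =>
    obtain ⟨x, hx, y, hy, rfl⟩ := ha
    rw [show j + 1 + k = (j + k) + 1 by ring]
    exact ⟨x, hx, y + b, ih hy, by ring⟩

lemma SS_mono {A : Set ℕ} (h0 : 0 ∈ A) {j k : ℕ} (h : j ≤ k) : SS A j ⊆ SS A k := by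
  intro a ha
  obtain ⟨d, rfl⟩ := Nat.exists_eq_add_of_le h
  have hz : ∀ d, 0 ∈ SS A d := by
    intro d
    induction d with
    | zero => rfl
    | succ d ih => exact ⟨0, h0, 0, ih, rfl⟩
  simpa using SS_add ha (hz d)

/-- the support of `g` consists of `k`-fold sums -/
def Sup (A : Set ℕ) (k : ℕ) (g : R⟦X⟧) : Prop := ∀ n, coeff n g ≠ 0 → n ∈ SS A k

lemma Sup.mul {A : Set ℕ} {j k : ℕ} {g h : R⟦X⟧} (hg : Sup A j g) (hh : Sup A k h) :
    Sup A (j + k) (g * h) := by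
  intro n hn
  rw [coeff_mul] at hn
  obtain ⟨p, hp, hne⟩ := Finset.exists_ne_zero_of_sum_ne_zero hn
  rw [← (mem_antidiagonal.1 hp)]
  exact SS_add (hg _ (left_ne_zero_of_mul hne)) (hh _ (right_ne_zero_of_mul hne))

lemma Sup.mono {A : Set ℕ} (h0 : 0 ∈ A) {j k : ℕ} (h : j ≤ k) {g : R⟦X⟧} (hg : Sup A j g) :
    Sup A k g := fun n hn => SS_mono h0 h (hg n hn)

lemma Sup.sum {A : Set ℕ} {k : ℕ} {ι : Type*} (s : Finset ι) (g : ι → R⟦X⟧)
    (hg : ∀ i ∈ s, Sup A k (g i)) : Sup A k (∑ i ∈ s, g i) := by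
  intro n hn
  rw [map_sum] at hn
  obtain ⟨i, hi, hne⟩ := Finset.exists_ne_zero_of_sum_ne_zero hn
  exact hg i hi n hne

lemma Sup.one {A : Set ℕ} : Sup A 0 (1 : R⟦X⟧) := by
  intro n hn
  rw [coeff_one] at hn
  by_contra hh
  apply hn
  rw [if_neg]
  intro h
  exact hh (by rw [h]; rfl)

lemma Sup.pow {A : Set ℕ} {g : R⟦X⟧} (hg : Sup A 1 g) (i : ℕ) : Sup A i (g ^ i) := by
  induction i with
  | zero => simpa using Sup.one
  | succ i ih => rw [pow_succ]; exact ih.mul hg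

lemma Sup.C_mul {A : Set ℕ} {k : ℕ} {g : R⟦X⟧} (hg : Sup A k g) (a : R) :
    Sup A k (C a * g) := by
  intro n hn
  rw [coeff_C_mul] at hn
  exact hg n (right_ne_zero_of_mul hn)

lemma mem_SS_one {A : Set ℕ} {n : ℕ} (h : n ∈ A) : n ∈ SS A 1 := ⟨n, h, 0, rfl, by simp⟩

lemma ser_sup {A : Set ℕ} (h0 : 0 ∈ A) (P : ℕ → R) (hA : ∀ v, P (v + 1) ≠ P v → v + 1 ∈ A) :
    Sup A 1 (ser P) := by
  intro n hn
  apply mem_SS_one
  cases n with
  | zero => exact h0
  | succ v =>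
    rw [coeff_ser_succ] at hn
    exact hA v fun h => hn (by rw [h, sub_self])

/-! ### Frobenius -/

lemma sum_if_dvd {M : Type*} [AddCommMonoid M] (φ : ℕ → M) (r : ℕ) (hr : 0 < r) (v : ℕ) :
    ∑ m ∈ range (r * v + 1), (if r ∣ m then φ (m / r) else 0) = ∑ j ∈ range (v + 1), φ j := by
  rw [← Finset.sum_filter]
  symm
  refine Finset.sum_nbij (fun j => r * j) ?_ ?_ ?_ ?_
  · intro j hj
    simp only [mem_filter, mem_range] at hj ⊢
    refine ⟨?_, dvd_mul_right _ _⟩
    have : r * j ≤ r * v := Nat.mul_le_mul_left r (by omega)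
    omega
  · intro a _ b _ h
    exact Nat.eq_of_mul_eq_mul_left hr h
  · intro m hm
    simp only [coe_filter, mem_range, Set.mem_ofPred_eq] at hm
    obtain ⟨h1, k, rfl⟩ := hm
    refine ⟨k, ?_, rfl⟩
    simp only [coe_range, Set.mem_Iio]
    have : r * k ≤ r * v := by omega
    have := Nat.le_of_mul_le_mul_left this hr
    omega
  · intro j _
    show φ j = φ (r * j / r)
    rw [Nat.mul_div_cancel_left _ hr]

lemma coeff_pow_char {k : Type*} [CommRing k] (q : ℕ) [Fact q.Prime] [CharP k q]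
    (f : k⟦X⟧) (n m : ℕ) :
    coeff m (f ^ q ^ n) = if q ^ n ∣ m then (coeff (m / q ^ n) f) ^ q ^ n else 0 := by
  have hq : q ≠ 0 := (Fact.out : q.Prime).ne_zero
  have : ExpChar k q := ExpChar.prime (Fact.out : q.Prime)
  have h := MvPowerSeries.map_iterateFrobenius_expand (σ := Unit) (R := k) q hq f n
  have h2 : PowerSeries.map (iterateFrobenius k q n)
      (PowerSeries.expand (q ^ n) (pow_ne_zero n hq) f) = f ^ q ^ n := h
  rw [← h2, PowerSeries.coeff_map, PowerSeries.coeff_expand]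
  split_ifs with h3
  · rw [iterateFrobenius_def]
  · rw [map_zero]

lemma cum_pow_char {k : Type*} [CommRing k] (q : ℕ) [Fact q.Prime] [CharP k q]
    (f : k⟦X⟧) (n v : ℕ) : cum (f ^ q ^ n) (q ^ n * v) = cum f v ^ q ^ n := by
  have hq : 0 < q := (Fact.out : q.Prime).pos
  have : ExpChar k q := ExpChar.prime (Fact.out : q.Prime)
  unfold cum
  simp_rw [coeff_pow_char q f n]
  rw [sum_if_dvd (fun j => (coeff j f) ^ q ^ n) (q ^ n) (pow_pos hq n) v, sum_pow_char_pow]

lemma cum_map {S : Type*} [CommRing S] (φ : R →+* S) (g : R⟦X⟧) (u : ℕ) :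
    cum (PowerSeries.map φ g) u = φ (cum g u) := by
  simp [cum, map_sum]

lemma frob_dvd (q : ℕ) (hq : q.Prime) (hqR : Prime (q : R)) (g : R⟦X⟧) (n v : ℕ) :
    (q : R) ∣ cum (g ^ q ^ n) (q ^ n * v) - cum g v ^ q ^ n := by
  have : Fact q.Prime := ⟨hq⟩
  have : CharP (R ⧸ Ideal.span {(q : R)}) q := CharP.quotient R q hqR.not_isUnit
  rw [← Ideal.mem_span_singleton, ← Ideal.Quotient.eq_zero_iff_mem, map_sub, map_pow,
    ← cum_map (Ideal.Quotient.mk _), ← cum_map (Ideal.Quotient.mk _), map_pow,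
    cum_pow_char q, sub_self]

/-! ### Division by powers of `q` -/

open Classical in
/-- `x / y` if this makes sense, otherwise `0` -/
noncomputable def quo (y x : R) : R := if h : y ∣ x then h.choose else 0

lemma quo_spec {y x : R} (h : y ∣ x) : x = y * quo y x := by
  rw [quo, dif_pos h]; exact h.choose_spec

lemma div_lemma {A : Set ℕ} (h0 : 0 ∈ A) (P : ℕ → R)
    (hA : ∀ v, P (v + 1) ≠ P v → v + 1 ∈ A) (y : R) {D i : ℕ} (hi : i ≤ D) {u : ℕ}
    (hu : u ∉ Pl (SS A (D - 1)) {v | ¬ y ∣ P v}) :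
    cum (ser P ^ i) u = y ^ i * cum (ser (fun v => quo y (P v)) ^ i) u := by
  cases i with
  | zero => simp
  | succ k =>
    set f := ser P with hf
    set g := ser (fun v => quo y (P v)) with hg
    have hgs : Sup A 1 g := ser_sup h0 _ fun v hv => hA v fun h => hv (by rw [h])
    have hfs : Sup A 1 f := ser_sup h0 _ hA
    have h1 : y ^ (k + 1) * cum (g ^ (k + 1)) u = cum ((C y * g) ^ (k + 1)) u := by
      rw [mul_pow, ← map_pow, cum_C_mul]
    rw [h1, ← sub_eq_zero, ← cum_sub, ← geom_sum₂_mul, cum_mul]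
    refine Finset.sum_eq_zero fun p hp => ?_
    have h2 : cum (f - C y * g) p.2 = P p.2 - y * quo y (P p.2) := by
      rw [cum_sub, cum_C_mul, hf, hg, cum_ser, cum_ser]
    rw [h2]
    by_contra hne
    apply hu
    refine ⟨p.1, ?_, p.2, ?_, mem_antidiagonal.1 hp⟩
    · have hs : Sup A k (∑ t ∈ range (k + 1), f ^ t * (C y * g) ^ (k + 1 - 1 - t)) := by
        refine Sup.sum _ _ fun t ht => ?_
        have ht' : t ≤ k := by
          have := mem_range.1 ht
          omega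
        have := (hfs.pow t).mul ((hgs.C_mul y).pow (k + 1 - 1 - t))
        rwa [show t + (k + 1 - 1 - t) = k by omega] at this
      exact SS_mono h0 (by omega) (hs _ (left_ne_zero_of_mul hne))
    · intro hd
      apply right_ne_zero_of_mul hne
      rw [← quo_spec hd, sub_self]

lemma nil_lemma {A : Set ℕ} (q : ℕ) (hq : q.Prime) (hqR : Prime (q : R)) (P' : ℕ → R)
    (hs : Sup A 1 (ser P')) {D n : ℕ} (hD : D ≤ q ^ n) (B : Set ℕ)
    (hB : ∀ u ∉ B, (q : R) ∣ cum (ser P' ^ D) u) {v : ℕ} (hv : ¬ (q : R) ∣ P' v) :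
    q ^ n * v ∈ Pl (SS A (q ^ n - D)) B := by
  by_contra hnot
  apply hv
  have h1 := frob_dvd q hq hqR (ser P') n v
  rw [cum_ser] at h1
  have h2 : (q : R) ∣ cum (ser P' ^ q ^ n) (q ^ n * v) := by
    rw [show q ^ n = (q ^ n - D) + D by omega, pow_add, cum_mul]
    rw [show (q ^ n - D) + D = q ^ n by omega]
    refine Finset.dvd_sum fun p hp => ?_
    by_cases hc : coeff p.1 (ser P' ^ (q ^ n - D)) = 0
    · rw [hc, zero_mul]; exact dvd_zero _
    · apply Dvd.dvd.mul_left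
      apply hB
      intro hb
      exact hnot ⟨p.1, hs.pow _ _ hc, p.2, hb, mem_antidiagonal.1 hp⟩
  have h3 : (q : R) ∣ P' v ^ q ^ n := (dvd_sub_right h2).1 h1
  exact hqR.dvd_of_dvd_pow h3

end Pool.Agent.Helper20K9.DC
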