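import Pool.Agent.Helper20K9.DC.Alg

/-! The gap lemma (Liouville inequality). -/

open Finset

namespace Pool.Agent.Helper20K9.DC

open PowerSeries

/-- coefficientwise domination -/
def Dom (g h : Polynomial ℤ) : Prop := ∀ w, |g.coeff w| ≤ h.coeff w

lemma Dom.add {g h g' h' : Polynomial ℤ} (h1 : Dom g g') (h2 : Dom h h') :
    Dom (g + h) (g' + h') := by
  intro w
  rw [Polynomial.coeff_add, Polynomial.coeff_add]
  exact le_trans (abs_add_le _ _) (add_le_add (h1 w) (h2 w))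

lemma Dom.mul {g h g' h' : Polynomial ℤ} (h1 : Dom g g') (h2 : Dom h h') :
    Dom (g * h) (g' * h') := by
  intro w
  rw [Polynomial.coeff_mul, Polynomial.coeff_mul]
  refine le_trans (Finset.abs_sum_le_sum_abs _ _) (Finset.sum_le_sum fun p _ => ?_)
  rw [abs_mul]
  exact mul_le_mul (h1 _) (h2 _) (abs_nonneg _) (le_trans (abs_nonneg _) (h1 _))

lemma Dom.C (a : ℤ) : Dom (Polynomial.C a) (Polynomial.C |a|) := by
  intro w
  rw [Polynomial.coeff_C, Polynomial.coeff_C]
  split_ifs <;> simp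

lemma Dom.pow {g g' : Polynomial ℤ} (h1 : Dom g g') (i : ℕ) : Dom (g ^ i) (g' ^ i) := by
  induction i with
  | zero =>
    have := Dom.C 1
    simpa using this
  | succ i ih => rw [pow_succ, pow_succ]; exact ih.mul h1

lemma Dom.sum {ι : Type*} (s : Finset ι) (g g' : ι → Polynomial ℤ)
    (h : ∀ i ∈ s, Dom (g i) (g' i)) : Dom (∑ i ∈ s, g i) (∑ i ∈ s, g' i) := by
  intro w
  rw [Polynomial.finsetSum_coeff, Polynomial.finsetSum_coeff]
  exact le_trans (Finset.abs_sum_le_sum_abs _ _) (Finset.sum_le_sum fun i hi => h i hi w)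

lemma Dom.sum_le {g g' : Polynomial ℤ} (h : Dom g g') (M : ℕ) :
    ∑ w ∈ range M, |g.coeff w| ≤ g'.eval 1 := by
  have h1 : g'.eval 1 = ∑ w ∈ range (max M (g'.natDegree + 1)), g'.coeff w * 1 ^ w :=
    Polynomial.eval_eq_sum_range' (by omega) 1
  rw [h1]
  simp only [one_pow, mul_one]
  refine le_trans (Finset.sum_le_sum fun w _ => h w) ?_
  refine Finset.sum_le_sum_of_subset_of_nonneg (range_mono (le_max_left _ _)) ?_
  intro w _ _
  exact le_trans (abs_nonneg _) (h w)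

theorem gap (b : ℕ) (hb : 2 ≤ b) (c : ℕ → ℤ) (B : ℕ) (hB : ∀ v, |c v| ≤ B) (x : ℝ)
    (hx : ∀ u : ℕ, |∑ a ∈ range (u + 1), (c a : ℝ) * ((b : ℝ)⁻¹) ^ a - x| ≤ ((b : ℝ)⁻¹) ^ u)
    (a : ℕ → ℤ) (D : ℕ) (hroot : ∑ i ∈ range (D + 1), (a i : ℝ) * x ^ i = 0) :
    ∃ C1 : ℕ, ∀ u L : ℕ, C1 * (u + L + 1) ^ D < b ^ L →
      (∀ t, 1 ≤ t → t ≤ L →
        coeff (u + t) (∑ i ∈ range (D + 1), PowerSeries.C (a i) * (mk c) ^ i : ℤ⟦X⟧) = 0) →
      ∑ w ∈ range (u + 1), coeff w (∑ i ∈ range (D + 1), PowerSeries.C (a i) * (mk c) ^ i : ℤ⟦X⟧)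
        * (b : ℤ) ^ (u - w) = 0 := by
  set y : ℝ := (b : ℝ)⁻¹ with hy
  have hbR : (2 : ℝ) ≤ b := by exact_mod_cast hb
  have hb0 : (0 : ℝ) < b := by linarith
  have hy0 : 0 < y := inv_pos.2 hb0
  have hy1 : y ≤ 1 := inv_le_one_of_one_le₀ (by linarith)
  -- Lipschitz constant
  set M : ℝ := |x| + 1 with hM
  have hM1 : 1 ≤ M := by rw [hM]; linarith [abs_nonneg x]
  set K : ℝ := ∑ i ∈ range (D + 1), |(a i : ℝ)| * (i * M ^ (i - 1)) with hK
  have hK0 : 0 ≤ K := Finset.sum_nonneg fun i _ => by positivity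
  have lip : ∀ x' : ℝ, |x' - x| ≤ 1 →
      |∑ i ∈ range (D + 1), (a i : ℝ) * x' ^ i| ≤ K * |x' - x| := by
    intro x' hx'
    have h1 : ∑ i ∈ range (D + 1), (a i : ℝ) * x' ^ i =
        ∑ i ∈ range (D + 1), (a i : ℝ) * (x' ^ i - x ^ i) := by
      simp only [mul_sub, Finset.sum_sub_distrib, hroot, sub_zero]
    rw [h1, hK, Finset.sum_mul]
    refine le_trans (Finset.abs_sum_le_sum_abs _ _) (Finset.sum_le_sum fun i _ => ?_)
    rw [abs_mul, mul_assoc]
    refine mul_le_mul_of_nonneg_left ?_ (abs_nonneg _)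
    refine le_trans (abs_pow_sub_pow_le x' x i) ?_
    have h2 : max |x'| |x| ≤ M := by
      apply max_le
      · have := abs_sub_abs_le_abs_sub x' x
        rw [hM]; linarith
      · rw [hM]; linarith
    have h3 : max |x'| |x| ^ (i - 1) ≤ M ^ (i - 1) :=
      pow_le_pow_left₀ (le_trans (abs_nonneg _) (le_max_left _ _)) h2 _
    calc |x' - x| * i * max |x'| |x| ^ (i - 1) ≤ |x' - x| * i * M ^ (i - 1) :=
          mul_le_mul_of_nonneg_left h3 (by positivity)
      _ = _ := by ring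
  obtain ⟨k, hk⟩ := exists_nat_ge K
  set SA : ℕ := ∑ i ∈ range (D + 1), (a i).natAbs with hSA
  refine ⟨k + SA * (B + 1) ^ D, fun u L hL hz => ?_⟩
  set F : ℤ⟦X⟧ := mk c with hF
  set G : ℤ⟦X⟧ := ∑ i ∈ range (D + 1), PowerSeries.C (a i) * F ^ i with hG
  set n := u + L + 1 with hn
  set p : Polynomial ℤ := trunc n F with hp
  set g : Polynomial ℤ := ∑ i ∈ range (D + 1), Polynomial.C (a i) * p ^ i with hg
  -- coefficients agree
  have hcoef : ∀ w < n, g.coeff w = coeff w G := by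
    have hd : (X : ℤ⟦X⟧) ^ n ∣ F - (p : ℤ⟦X⟧) := by
      rw [X_pow_dvd_iff]
      intro m hm
      rw [map_sub, Polynomial.coeff_coe, hp, coeff_trunc, if_pos hm, sub_self]
    have hd2 : (X : ℤ⟦X⟧) ^ n ∣ G - (g : ℤ⟦X⟧) := by
      have e : G - (g : ℤ⟦X⟧) =
          ∑ i ∈ range (D + 1), PowerSeries.C (a i) * (F ^ i - (p : ℤ⟦X⟧) ^ i) := by
        have e1 : (g : ℤ⟦X⟧) = ∑ i ∈ range (D + 1), PowerSeries.C (a i) * (p : ℤ⟦X⟧) ^ i := by
          have := map_sum (Polynomial.coeToPowerSeries.ringHom (R := ℤ))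
            (fun i => Polynomial.C (a i) * p ^ i) (range (D + 1))
          rw [Polynomial.coeToPowerSeries.ringHom_apply] at this
          rw [hg, this]
          refine Finset.sum_congr rfl fun i _ => ?_
          rw [map_mul, map_pow, Polynomial.coeToPowerSeries.ringHom_apply,
            Polynomial.coeToPowerSeries.ringHom_apply, Polynomial.coe_C]
        rw [e1, hG, ← Finset.sum_sub_distrib]
        exact Finset.sum_congr rfl fun i _ => by ring
      rw [e]
      refine Finset.dvd_sum fun i _ => ?_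
      exact Dvd.dvd.mul_left (dvd_trans hd (sub_dvd_pow_sub_pow _ _ _)) _
    intro w hw
    have := (X_pow_dvd_iff.1 hd2) w hw
    rw [map_sub, Polynomial.coeff_coe] at this
    linarith
  -- values
  set x' : ℝ := ∑ a ∈ range n, (c a : ℝ) * y ^ a with hx'
  have hpx : Polynomial.aeval y p = x' := by
    rw [Polynomial.aeval_def, hp, eval₂_trunc_eq_sum_range, hx']
    refine Finset.sum_congr rfl fun i _ => ?_
    simp [hF]
  have hgx : Polynomial.aeval y g = ∑ i ∈ range (D + 1), (a i : ℝ) * x' ^ i := by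
    rw [hg, map_sum]
    refine Finset.sum_congr rfl fun i _ => ?_
    rw [map_mul, map_pow, hpx, Polynomial.aeval_C]
    simp
  have hxx : |x' - x| ≤ y ^ (u + L) := by
    have := hx (u + L)
    rwa [← hn] at this
  have hxx1 : |x' - x| ≤ 1 := le_trans hxx (pow_le_one₀ hy0.le hy1)
  have hval : |Polynomial.aeval y g| ≤ K * y ^ (u + L) := by
    rw [hgx]
    exact le_trans (lip x' hxx1) (mul_le_mul_of_nonneg_left hxx hK0)
  -- domination
  set ph : Polynomial ℤ := ∑ v ∈ range n, Polynomial.monomial v |c v| with hph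
  have hdp : Dom p ph := by
    intro w
    rw [hp, coeff_trunc, hph, Polynomial.finsetSum_coeff]
    simp only [Polynomial.coeff_monomial]
    rw [Finset.sum_ite_eq' (range n) w]
    simp only [mem_range]
    split_ifs
    · simp [hF]
    · simp
  have hdg : Dom g (∑ i ∈ range (D + 1), Polynomial.C |a i| * ph ^ i) :=
    Dom.sum _ _ _ fun i _ => (Dom.C (a i)).mul (hdp.pow i)
  have hph1 : ph.eval 1 ≤ (n : ℤ) * (B + 1) := by
    rw [hph, Polynomial.eval_finsetSum]
    simp only [Polynomial.eval_monomial, one_pow, mul_one]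
    calc ∑ v ∈ range n, |c v| ≤ ∑ v ∈ range n, ((B : ℤ) + 1) :=
          Finset.sum_le_sum fun v _ => by linarith [hB v]
      _ = _ := by simp
  have hph0 : 0 ≤ ph.eval 1 := by
    rw [hph, Polynomial.eval_finsetSum]
    simp only [Polynomial.eval_monomial, one_pow, mul_one]
    exact Finset.sum_nonneg fun v _ => abs_nonneg _
  have hn1 : 1 ≤ n := by omega
  have hgsum : ∀ m, ∑ w ∈ range m, |g.coeff w| ≤ (SA : ℤ) * ((n : ℤ) * (B + 1)) ^ D := by
    intro m
    refine le_trans (hdg.sum_le m) ?_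
    rw [Polynomial.eval_finsetSum, hSA]
    push_cast
    rw [Finset.sum_mul]
    refine Finset.sum_le_sum fun i hi => ?_
    rw [Polynomial.eval_mul, Polynomial.eval_C, Polynomial.eval_pow]
    refine mul_le_mul_of_nonneg_left ?_ (abs_nonneg _)
    have h1 : ph.eval 1 ^ i ≤ ((n : ℤ) * (B + 1)) ^ i := pow_le_pow_left₀ hph0 hph1 i
    refine le_trans h1 (pow_le_pow_right₀ ?_ (by have := mem_range.1 hi; omega))
    have : (1 : ℤ) ≤ n := by exact_mod_cast hn1
    have h4 : (0 : ℤ) ≤ B := by positivity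
    nlinarith
  -- splitting
  set m := max n (g.natDegree + 1) with hm
  have hnm : n ≤ m := le_max_left _ _
  have hsplit : (b : ℝ) ^ u * Polynomial.aeval y g =
      (∑ w ∈ range (u + 1), ((coeff w G : ℤ) : ℝ) * (b : ℝ) ^ (u - w)) +
        ∑ w ∈ Ico n m, (g.coeff w : ℝ) * ((b : ℝ) ^ u * y ^ w) := by
    have e0 : Polynomial.aeval y g = ∑ w ∈ range m, (g.coeff w : ℝ) * y ^ w := by
      rw [Polynomial.aeval_eq_sum_range' (n := m) (by omega)]
      refine Finset.sum_congr rfl fun w _ => ?_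
      simp
    rw [e0, Finset.mul_sum, ← Finset.sum_range_add_sum_Ico _ hnm]
    congr 1
    · rw [← Finset.sum_range_add_sum_Ico _ (show u + 1 ≤ n by omega)]
      have e2 : ∑ w ∈ Ico (u + 1) n, (b : ℝ) ^ u * ((g.coeff w : ℝ) * y ^ w) = 0 := by
        refine Finset.sum_eq_zero fun w hw => ?_
        rw [mem_Ico] at hw
        have e3 : g.coeff w = 0 := by
          rw [hcoef w hw.2]
          have := hz (w - u) (by omega) (by omega)
          rwa [show u + (w - u) = w by omega] at this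
        rw [e3]; simp
      rw [e2, add_zero]
      refine Finset.sum_congr rfl fun w hw => ?_
      have hw' := mem_range.1 hw
      rw [hcoef w (by omega)]
      have e4 : (b : ℝ) ^ u * y ^ w = (b : ℝ) ^ (u - w) := by
        rw [hy, inv_pow, show (b : ℝ) ^ u = (b : ℝ) ^ (u - w) * (b : ℝ) ^ w by
          rw [← pow_add]; congr 1; omega]
        field_simp
      rw [← e4]; ring
    · refine Finset.sum_congr rfl fun w _ => ?_
      ring
  have htail : |∑ w ∈ Ico n m, (g.coeff w : ℝ) * ((b : ℝ) ^ u * y ^ w)| ≤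
      y ^ L * ((SA : ℝ) * ((n : ℝ) * (B + 1)) ^ D) := by
    refine le_trans (Finset.abs_sum_le_sum_abs _ _) ?_
    have h1 : ∀ w ∈ Ico n m, |(g.coeff w : ℝ) * ((b : ℝ) ^ u * y ^ w)| ≤
        |(g.coeff w : ℝ)| * y ^ L := by
      intro w hw
      rw [mem_Ico] at hw
      rw [abs_mul]
      refine mul_le_mul_of_nonneg_left ?_ (abs_nonneg _)
      rw [abs_of_nonneg (by positivity)]
      have h2 : y ^ w ≤ y ^ (u + L) := pow_le_pow_of_le_one hy0.le hy1 (by omega)
      calc (b : ℝ) ^ u * y ^ w ≤ (b : ℝ) ^ u * y ^ (u + L) :=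
            mul_le_mul_of_nonneg_left h2 (by positivity)
        _ = y ^ L := by
            rw [pow_add, ← mul_assoc, ← mul_pow, hy, mul_inv_cancel₀ hb0.ne', one_pow, one_mul]
    refine le_trans (Finset.sum_le_sum h1) ?_
    rw [← Finset.sum_mul, mul_comm]
    refine mul_le_mul_of_nonneg_left ?_ (by positivity)
    have h3 : ∑ w ∈ Ico n m, |(g.coeff w : ℝ)| ≤ ∑ w ∈ range m, |(g.coeff w : ℝ)| := by
      refine Finset.sum_le_sum_of_subset_of_nonneg ?_ fun _ _ _ => abs_nonneg _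
      intro w hw
      rw [mem_Ico] at hw
      exact mem_range.2 hw.2
    refine le_trans h3 ?_
    have := hgsum m
    have h4 : ((∑ w ∈ range m, |g.coeff w| : ℤ) : ℝ) ≤
        (((SA : ℤ) * ((n : ℤ) * (B + 1)) ^ D : ℤ) : ℝ) := by exact_mod_cast this
    push_cast at h4
    exact h4
  -- conclusion
  set T : ℤ := ∑ w ∈ range (u + 1), coeff w G * (b : ℤ) ^ (u - w) with hT
  have hTR : (T : ℝ) = ∑ w ∈ range (u + 1), ((coeff w G : ℤ) : ℝ) * (b : ℝ) ^ (u - w) := by
    rw [hT]; push_cast; rfl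
  have hfin : |(T : ℝ)| < 1 := by
    have e1 : (T : ℝ) = (b : ℝ) ^ u * Polynomial.aeval y g -
        ∑ w ∈ Ico n m, (g.coeff w : ℝ) * ((b : ℝ) ^ u * y ^ w) := by
      rw [hsplit, ← hTR]; ring
    have e2 : |(b : ℝ) ^ u * Polynomial.aeval y g| ≤ k * y ^ L := by
      rw [abs_mul, abs_of_nonneg (by positivity : (0 : ℝ) ≤ (b : ℝ) ^ u)]
      calc (b : ℝ) ^ u * |Polynomial.aeval y g| ≤ (b : ℝ) ^ u * (K * y ^ (u + L)) :=
            mul_le_mul_of_nonneg_left hval (by positivity)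
        _ = K * ((b * y) ^ u * y ^ L) := by rw [pow_add, mul_pow]; ring
        _ = K * y ^ L := by rw [hy, mul_inv_cancel₀ hb0.ne', one_pow, one_mul]
        _ ≤ k * y ^ L := mul_le_mul_of_nonneg_right hk (by positivity)
    have e3 : |(T : ℝ)| ≤ y ^ L * (k + (SA : ℝ) * ((n : ℝ) * (B + 1)) ^ D) := by
      rw [e1]
      refine le_trans (abs_sub _ _) ?_
      nlinarith [htail, e2]
    refine lt_of_le_of_lt e3 ?_
    have e4 : (k : ℝ) + (SA : ℝ) * ((n : ℝ) * (B + 1)) ^ D ≤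
        ((k : ℝ) + SA * (B + 1) ^ D) * (n : ℝ) ^ D := by
      have hnR : (1 : ℝ) ≤ n := by exact_mod_cast hn1
      have h5 : (1 : ℝ) ≤ (n : ℝ) ^ D := one_le_pow₀ hnR
      have h6 : (0 : ℝ) ≤ k := by positivity
      rw [mul_pow]
      nlinarith
    have e5 : ((k : ℝ) + SA * (B + 1) ^ D) * (n : ℝ) ^ D < (b : ℝ) ^ L := by
      have : (((k + SA * (B + 1) ^ D) * (u + L + 1) ^ D : ℕ) : ℝ) < ((b ^ L : ℕ) : ℝ) := by
        exact_mod_cast hL
      push_cast at this
      rw [hn]; push_cast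
      exact this
    calc y ^ L * (k + (SA : ℝ) * ((n : ℝ) * (B + 1)) ^ D) < y ^ L * (b : ℝ) ^ L :=
          mul_lt_mul_of_pos_left (lt_of_le_of_lt e4 e5) (by positivity)
      _ = 1 := by rw [← mul_pow, hy, inv_mul_cancel₀ hb0.ne', one_pow]
  have hT1 : |T| < 1 := by exact_mod_cast hfin
  exact Int.abs_lt_one_iff.1 hT1

end Pool.Agent.Helper20K9.DC
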