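import Pool.Agent.Helper20K9.DC.Count
import Pool.Agent.Helper20K9.DC.Gap

/-! Digits of an algebraic number and the descent. -/

open Finset

namespace Pool.Agent.Helper20K9.DC

open PowerSeries

/-- `⌊b^(v+l) α⌋ - ⌊b^v α⌋` -/
noncomputable def NN (b l : ℕ) (α : ℝ) (v : ℕ) : ℤ := ⌊(b : ℝ) ^ (v + l) * α⌋ - ⌊(b : ℝ) ^ v * α⌋

/-- the jumps -/
noncomputable def cc (b l : ℕ) (α : ℝ) : ℕ → ℤ
  | 0 => NN b l α 0
  | v + 1 => NN b l α (v + 1) - b * NN b l α v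

lemma floor_digit (b : ℕ) (hb : 0 < b) (x : ℝ) :
    0 ≤ ⌊(b : ℝ) * x⌋ - b * ⌊x⌋ ∧ ⌊(b : ℝ) * x⌋ - b * ⌊x⌋ < b := by
  have hbR : (0 : ℝ) < b := by exact_mod_cast hb
  constructor
  · have : (b : ℤ) * ⌊x⌋ ≤ ⌊(b : ℝ) * x⌋ := by
      rw [Int.le_floor]
      push_cast
      exact mul_le_mul_of_nonneg_left (Int.floor_le x) hbR.le
    linarith
  · have : ⌊(b : ℝ) * x⌋ < (b : ℤ) * ⌊x⌋ + b := by
      rw [Int.floor_lt]
      push_cast
      have := mul_lt_mul_of_pos_left (Int.lt_floor_add_one x) hbR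
      linarith
    linarith

lemma cc_bound (b l : ℕ) (hb : 0 < b) (α : ℝ) (v : ℕ) :
    |cc b l α v| ≤ (((NN b l α 0).natAbs + b : ℕ) : ℤ) := by
  have h0 : (0 : ℤ) ≤ b := by positivity
  cases v with
  | zero =>
    show |NN b l α 0| ≤ _
    push_cast
    linarith
  | succ v =>
    show |NN b l α (v + 1) - b * NN b l α v| ≤ _
    have h1 := floor_digit b hb ((b : ℝ) ^ (v + l) * α)
    have h2 := floor_digit b hb ((b : ℝ) ^ v * α)
    have e1 : (b : ℝ) * ((b : ℝ) ^ (v + l) * α) = (b : ℝ) ^ (v + 1 + l) * α := by ring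
    have e2 : (b : ℝ) * ((b : ℝ) ^ v * α) = (b : ℝ) ^ (v + 1) * α := by ring
    rw [e1] at h1
    rw [e2] at h2
    have h3 : |NN b l α (v + 1) - b * NN b l α v| ≤ b := by
      unfold NN
      rw [abs_le]
      constructor
      · nlinarith [h1.1, h2.2]
      · nlinarith [h1.2, h2.1]
    push_cast
    linarith [abs_nonneg (NN b l α 0)]

lemma sum_cc (b l : ℕ) (hb : 0 < b) (α : ℝ) (u : ℕ) :
    ∑ a ∈ range (u + 1), (cc b l α a : ℝ) * ((b : ℝ)⁻¹) ^ a = NN b l α u * ((b : ℝ)⁻¹) ^ u := by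
  have hbR : (b : ℝ) ≠ 0 := by positivity
  induction u with
  | zero => simp [cc]
  | succ u ih =>
    rw [Finset.sum_range_succ, ih]
    simp only [cc]
    push_cast
    rw [pow_succ]
    field_simp
    ring

lemma approx (b l : ℕ) (hb : 0 < b) (α : ℝ) (u : ℕ) :
    |∑ a ∈ range (u + 1), (cc b l α a : ℝ) * ((b : ℝ)⁻¹) ^ a - ((b : ℝ) ^ l - 1) * α| ≤
      ((b : ℝ)⁻¹) ^ u := by
  have hbR : (0 : ℝ) < b := by exact_mod_cast hb
  rw [sum_cc b l hb]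
  have e : (NN b l α u : ℝ) * ((b : ℝ)⁻¹) ^ u - ((b : ℝ) ^ l - 1) * α =
      ((b : ℝ)⁻¹) ^ u * (Int.fract ((b : ℝ) ^ u * α) - Int.fract ((b : ℝ) ^ (u + l) * α)) := by
    have h1 : ((b : ℝ)⁻¹) ^ u * (b : ℝ) ^ u = 1 := by
      rw [← mul_pow, inv_mul_cancel₀ hbR.ne', one_pow]
    unfold NN
    push_cast
    rw [Int.fract, Int.fract, pow_add]
    linear_combination (α - α * (b : ℝ) ^ l) * (-1) * h1
  rw [e, abs_mul, abs_of_nonneg (by positivity)]
  have h2 : |Int.fract ((b : ℝ) ^ u * α) - Int.fract ((b : ℝ) ^ (u + l) * α)| ≤ 1 := by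
    rw [abs_le]
    constructor
    · linarith [Int.fract_nonneg ((b : ℝ) ^ u * α), (Int.fract_lt_one ((b : ℝ) ^ (u + l) * α)).le]
    · linarith [Int.fract_nonneg ((b : ℝ) ^ (u + l) * α), (Int.fract_lt_one ((b : ℝ) ^ u * α)).le]
  calc ((b : ℝ)⁻¹) ^ u * |Int.fract ((b : ℝ) ^ u * α) - Int.fract ((b : ℝ) ^ (u + l) * α)|
      ≤ ((b : ℝ)⁻¹) ^ u * 1 := mul_le_mul_of_nonneg_left h2 (by positivity)
    _ = _ := mul_one _

lemma rescale_C' {R : Type*} [CommRing R] (K x : R) :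
    rescale K (PowerSeries.C x) = PowerSeries.C x := by
  ext n
  rw [coeff_rescale, coeff_C]
  split_ifs with h
  · rw [h, pow_zero, one_mul]
  · rw [mul_zero]

lemma cnt_all {B : Set ℕ} (h : ∀ v, v ∈ B) (Y : ℕ) : cnt B Y = Y + 1 := by
  classical
  unfold cnt
  rw [filter_true_of_mem (fun x _ => h x), card_range]

/-- passage to a ring where `b` is invertible -/
lemma bridge {R : Type*} [CommRing R] (b : ℕ) (K : R) (hK : K * b = 1) (c N : ℕ → ℤ)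
    (h0 : c 0 = N 0) (hc : ∀ v, c (v + 1) = N (v + 1) - b * N v) (a : ℕ → ℤ) (D u : ℕ) :
    ∑ i ∈ range (D + 1), (a i : R) * cum (ser (fun v => K ^ v * (N v : R)) ^ i) u =
      K ^ u * ((∑ w ∈ range (u + 1),
        coeff w (∑ i ∈ range (D + 1), PowerSeries.C (a i) * (mk c) ^ i : ℤ⟦X⟧)
          * (b : ℤ) ^ (u - w) : ℤ) : R) := by
  have hs : ser (fun v => K ^ v * (N v : R)) =
      rescale K (PowerSeries.map (Int.castRingHom R) (mk c)) := by
    ext n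
    rw [coeff_rescale, coeff_map, coeff_mk]
    cases n with
    | zero => rw [coeff_ser_zero, h0]; simp
    | succ v =>
      rw [coeff_ser_succ, hc]
      have : K ^ v = K ^ (v + 1) * b := by rw [pow_succ, mul_assoc, hK, mul_one]
      simp only [eq_intCast]
      push_cast
      conv_lhs => rw [this]
      ring_nf
  set G : ℤ⟦X⟧ := ∑ i ∈ range (D + 1), PowerSeries.C (a i) * (mk c) ^ i with hG
  have h1 : ∑ i ∈ range (D + 1), (a i : R) * cum (ser (fun v => K ^ v * (N v : R)) ^ i) u =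
      cum (rescale K (PowerSeries.map (Int.castRingHom R) G)) u := by
    rw [hG, map_sum, map_sum, cum_sum]
    refine Finset.sum_congr rfl fun i _ => ?_
    rw [map_mul, map_mul, map_pow, map_pow, ← hs, PowerSeries.map_C, rescale_C', cum_C_mul]
    simp
  rw [h1, cum]
  push_cast
  rw [Finset.mul_sum]
  refine Finset.sum_congr rfl fun w hw => ?_
  have hw' := mem_range.1 hw
  rw [coeff_rescale, coeff_map]
  have h2 : K ^ w = K ^ u * (b : R) ^ (u - w) := by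
    rw [show K ^ u = K ^ w * K ^ (u - w) by rw [← pow_add]; congr 1; omega, mul_assoc,
      ← mul_pow, hK, one_pow, mul_one]
  rw [h2]
  simp only [eq_intCast]
  ring

/-- positions of the jumps -/
def AA (b l : ℕ) (α : ℝ) : Set ℕ := {v | v = 0 ∨ cc b l α v ≠ 0}

lemma zero_mem_AA (b l : ℕ) (α : ℝ) : 0 ∈ AA b l α := Or.inl rfl

lemma card_shift (S : Set ℕ) (L Z : ℕ) :
    cnt {u | ∃ t, 1 ≤ t ∧ t ≤ L ∧ u + t ∈ S} Z ≤ L * cnt S (Z + L) := by
  classical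
  have h1 : ((range (Z + 1)).filter (· ∈ {u | ∃ t, 1 ≤ t ∧ t ≤ L ∧ u + t ∈ S})) ⊆
      (Icc 1 L).biUnion fun t => (range (Z + 1)).filter (fun u => u + t ∈ S) := by
    intro u hu
    simp only [mem_filter, mem_range, Set.mem_ofPred_eq] at hu
    obtain ⟨hu1, t, ht1, ht2, ht3⟩ := hu
    simp only [mem_biUnion, mem_Icc, mem_filter, mem_range]
    exact ⟨t, ⟨ht1, ht2⟩, hu1, ht3⟩
  unfold cnt
  refine le_trans (card_le_card (t := (Icc 1 L).biUnion fun t =>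
    (range (Z + 1)).filter (fun u => u + t ∈ S)) (by convert h1)) ?_
  refine le_trans card_biUnion_le ?_
  have h2 : ∀ t ∈ Icc 1 L, ((range (Z + 1)).filter (fun u => u + t ∈ S)).card ≤
      ((range (Z + L + 1)).filter (· ∈ S)).card := by
    intro t ht
    rw [mem_Icc] at ht
    refine card_le_card_of_injOn (fun u => u + t) ?_ ?_
    · intro u hu
      simp only [coe_filter, mem_range, Set.mem_ofPred_eq] at hu ⊢
      exact ⟨by omega, hu.2⟩
    · intro x _ y _ h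
      simpa using h
  refine le_trans (Finset.sum_le_sum h2) ?_
  simp

theorem setup (b l : ℕ) (hb : 2 ≤ b) (α : ℝ) (a : ℕ → ℤ) (D : ℕ)
    (hroot : ∑ i ∈ range (D + 1), (a i : ℝ) * (((b : ℝ) ^ l - 1) * α) ^ i = 0) :
    ∃ C1 : ℕ, ∀ L Y : ℕ, C1 * (Y + L + 1) ^ D < b ^ L →
      ∃ B0 : Set ℕ, (∀ Z ≤ Y, cnt B0 Z ≤ L * cnt (AA b l α) (Z + L) ^ D) ∧
        ∀ {R : Type} [CommRing R] (K : R), K * b = 1 → ∀ u ∉ B0,
          ∑ i ∈ range (D + 1), (a i : R) *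
            cum (ser (fun v => K ^ v * (NN b l α v : R)) ^ i) u = 0 := by
  have hb0 : 0 < b := by omega
  obtain ⟨C1, hC1⟩ := gap b hb (cc b l α) ((NN b l α 0).natAbs + b) (cc_bound b l hb0 α)
    (((b : ℝ) ^ l - 1) * α) (approx b l hb0 α) a D hroot
  refine ⟨C1, fun L Y hL => ?_⟩
  set A := AA b l α with hA
  set B0 : Set ℕ := {u | Y < u} ∪ {u | ∃ t, 1 ≤ t ∧ t ≤ L ∧ u + t ∈ SS A D} with hB0
  refine ⟨B0, ?_, ?_⟩
  · intro Z hZ
    have h1 : cnt B0 Z ≤ cnt {u | ∃ t, 1 ≤ t ∧ t ≤ L ∧ u + t ∈ SS A D} Z := by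
      apply cnt_le_of
      intro x hx hxB
      rcases hxB with h | h
      · exact absurd (show Y < x from h) (by omega)
      · exact h
    refine le_trans h1 (le_trans (card_shift _ _ _) (Nat.mul_le_mul_left _ (cnt_SS _ _ _)))
  · intro R _ K hK u hu
    rw [bridge b K hK (cc b l α) (NN b l α) rfl (fun v => rfl) a D u]
    have hu1 : u ≤ Y := by
      by_contra h
      exact hu (Or.inl (by simpa using h))
    have hz := hC1 u L (lt_of_le_of_lt (Nat.mul_le_mul_left _ (Nat.pow_le_pow_left (by omega) _)) hL)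
      (by
        intro t ht1 ht2
        by_contra hne
        apply hu
        right
        refine ⟨t, ht1, ht2, ?_⟩
        have hs : Sup A 1 (mk (cc b l α) : ℤ⟦X⟧) := by
          intro n hn
          rw [coeff_mk] at hn
          exact mem_SS_one (Or.inr hn)
        have : Sup A D (∑ i ∈ range (D + 1), PowerSeries.C (a i) * (mk (cc b l α)) ^ i : ℤ⟦X⟧) := by
          refine Sup.sum _ _ fun i hi => ?_
          exact ((hs.pow i).C_mul _).mono (zero_mem_AA b l α) (by have := mem_range.1 hi; omega)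
        exact this _ hne)
    rw [hz]
    simp

lemma jumps (b l : ℕ) (α : ℝ) {R : Type*} [CommRing R] (K : R) (hK : K * b = 1) (v : ℕ)
    (h : K ^ (v + 1) * (NN b l α (v + 1) : R) ≠ K ^ v * (NN b l α v : R)) :
    v + 1 ∈ AA b l α := by
  right
  intro hz
  apply h
  have h1 : NN b l α (v + 1) = b * NN b l α v := by
    have : NN b l α (v + 1) - b * NN b l α v = 0 := hz
    linarith
  rw [h1]
  push_cast
  rw [pow_succ]
  linear_combination (K ^ v * (NN b l α v : R)) * hK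

lemma exists_K (b q : ℕ) (hq : q.Prime) (hqb : ¬ q ∣ b) [Fact q.Prime] :
    ∃ K : ℤ_[q], K * b = 1 := by
  have h : IsUnit (b : ℤ_[q]) := by
    rw [PadicInt.isUnit_iff, PadicInt.norm_natCast_eq_one_iff]
    exact (Nat.Prime.coprime_iff_not_dvd hq).2 hqb
  obtain ⟨u, hu⟩ := h
  exact ⟨(↑u⁻¹ : ℤ_[q]), by rw [← hu]; simp⟩

lemma dvd_iff (b l : ℕ) (α : ℝ) (q : ℕ) [Fact q.Prime] (K : ℤ_[q]) (hK : K * b = 1)
    (j v : ℕ) : (q : ℤ_[q]) ^ j ∣ K ^ v * (NN b l α v : ℤ_[q]) ↔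
      (q : ℤ) ^ j ∣ NN b l α v := by
  have hu : IsUnit (K ^ v) := (IsUnit.of_mul_eq_one _ hK).pow v
  rw [hu.dvd_mul_left, PadicInt.pow_p_dvd_int_iff]

lemma cast_dvd' (q : ℕ) [Fact q.Prime] (j : ℕ) (x : ℤ) :
    (q : ℤ_[q]) ^ j ∣ (x : ℤ_[q]) ↔ (q : ℤ) ^ j ∣ x := by
  rw [PadicInt.pow_p_dvd_int_iff]

theorem core (b l : ℕ) (hb : 2 ≤ b) (α : ℝ) (a : ℕ → ℤ) (D : ℕ) (hD1 : 1 ≤ D)
    (hroot : ∑ i ∈ range (D + 1), (a i : ℝ) * (((b : ℝ) ^ l - 1) * α) ^ i = 0) :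
    ∃ C1 : ℕ, ∀ L Y : ℕ, C1 * (Y + L + 1) ^ D < b ^ L →
      ∀ q : ℕ, q.Prime → ¬ q ∣ b → ¬ (q : ℤ) ∣ a D → ∀ n, D ≤ q ^ n →
      (∀ J, (∀ j < J, ∀ i < D, (q : ℤ) ^ ((D - i) * j + 1) ∣ a i) →
        ∀ X, (q ^ n) ^ J * X ≤ Y → cnt {v | ¬ (q : ℤ) ^ J ∣ NN b l α v} X ≤
          3 ^ J * L * cnt (AA b l α) ((q ^ n) ^ J * X + L) ^ (J * (q ^ n - 1) + 1)) ∧
      (∀ e, 2 ≤ D → (∀ i < D, (q : ℤ) ^ ((D - i) * e + 1) ∣ a i) →
        ¬ (q : ℤ) ^ (D * e + 2) ∣ a 0 →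
        ∀ X, (q ^ n) ^ (e + 1) * X ≤ Y → X + 1 ≤ (1 + 3 ^ (e + 1)) * L *
          cnt (AA b l α) ((q ^ n) ^ (e + 1) * X + L) ^ ((e + 1) * (q ^ n - 1) + D)) := by
  obtain ⟨C1, hC1⟩ := setup b l hb α a D hroot
  refine ⟨C1, fun L Y hL q hq hqb haD n hDn => ?_⟩
  obtain ⟨B0, hB0c, hB0⟩ := hC1 L Y hL
  have : Fact q.Prime := ⟨hq⟩
  obtain ⟨K, hK⟩ := exists_K b q hq hqb
  have hqR : Prime (q : ℤ_[q]) := PadicInt.prime_p
  have haD' : ¬ (q : ℤ_[q]) ∣ ((a D : ℤ) : ℤ_[q]) := by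
    intro h
    apply haD
    have := (cast_dvd' q 1 (a D)).1 (by simpa using h)
    simpa using this
  have main := fun (J : ℕ) (hJ : ∀ j < J, ∀ i < D, (q : ℤ) ^ ((D - i) * j + 1) ∣ a i) =>
    cntE (zero_mem_AA b l α) (fun v => K ^ v * (NN b l α v : ℤ_[q])) (jumps b l α K hK) q hq hqR
      (fun i => ((a i : ℤ) : ℤ_[q])) D hD1 B0 (hB0 K hK) haD' L Y hB0c n hDn J
      (fun j hj i hi => (cast_dvd' q _ _).2 (hJ j hj i hi)) J le_rfl
  have hset : ∀ J, {v | ¬ (q : ℤ_[q]) ^ J ∣ K ^ v * (NN b l α v : ℤ_[q])} =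
      {v | ¬ (q : ℤ) ^ J ∣ NN b l α v} := by
    intro J
    ext v
    exact not_congr (dvd_iff b l α q K hK J v)
  refine ⟨?_, ?_⟩
  · intro J hJ X hX
    have := main J hJ X hX
    rwa [hset J] at this
  · intro e hD2 hj ha0 X hX
    have hJ : ∀ j < e + 1, ∀ i < D, (q : ℤ) ^ ((D - i) * j + 1) ∣ a i := by
      intro j hj' i hi
      refine dvd_trans (pow_dvd_pow _ ?_) (hj i hi)
      have : (D - i) * j ≤ (D - i) * e := Nat.mul_le_mul_left _ (by omega)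
      omega
    have h1 := main (e + 1) hJ X hX
    have hall := all_exceptional (zero_mem_AA b l α)
      (fun v => K ^ v * (NN b l α v : ℤ_[q])) (jumps b l α K hK) q
      (fun i => ((a i : ℤ) : ℤ_[q])) D hD2 B0 (hB0 K hK) e
      (fun i hi => (cast_dvd' q _ _).2 (hj i hi)) (fun h => ha0 ((cast_dvd' q _ _).1 h))
    set A := AA b l α with hA
    set r := q ^ n with hr
    set T := cnt A (r ^ (e + 1) * X + L) with hT
    have hr1 : 1 ≤ r := Nat.one_le_pow _ _ hq.pos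
    have hT1 : 1 ≤ T := cnt_pos (zero_mem_AA b l α) _
    have hX1 : X ≤ r ^ (e + 1) * X := by
      have : 1 ≤ r ^ (e + 1) := Nat.one_le_pow _ _ hr1
      nlinarith
    have h2 : X + 1 ≤ cnt (B0 ∪ Pl (SS A (D - 1))
        {v | ¬ (q : ℤ_[q]) ^ (e + 1) ∣ K ^ v * (NN b l α v : ℤ_[q])}) X :=
      (cnt_all hall X).ge
    have h3 : cnt B0 X ≤ L * T ^ D := by
      refine le_trans (hB0c X (le_trans hX1 hX)) (Nat.mul_le_mul_left _ ?_)
      exact Nat.pow_le_pow_left (cnt_mono A (by omega)) _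
    have h4 : cnt (Pl (SS A (D - 1))
        {v | ¬ (q : ℤ_[q]) ^ (e + 1) ∣ K ^ v * (NN b l α v : ℤ_[q])}) X ≤
        T ^ (D - 1) * (3 ^ (e + 1) * L * T ^ ((e + 1) * (r - 1) + 1)) := by
      refine le_trans (cnt_Pl _ _ _) (Nat.mul_le_mul ?_ h1)
      exact le_trans (cnt_SS _ _ _) (Nat.pow_le_pow_left (cnt_mono A (by omega)) _)
    have h5 : X + 1 ≤ L * T ^ D +
        T ^ (D - 1) * (3 ^ (e + 1) * L * T ^ ((e + 1) * (r - 1) + 1)) :=
      le_trans h2 (le_trans (cnt_union _ _ _) (Nat.add_le_add h3 h4))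
    refine le_trans h5 ?_
    have e1 : T ^ (D - 1) * (3 ^ (e + 1) * L * T ^ ((e + 1) * (r - 1) + 1)) =
        3 ^ (e + 1) * L * T ^ ((e + 1) * (r - 1) + D) := by
      rw [show (e + 1) * (r - 1) + D = (D - 1) + ((e + 1) * (r - 1) + 1) by omega, pow_add]
      ring
    have e2 : T ^ D ≤ T ^ ((e + 1) * (r - 1) + D) := Nat.pow_le_pow_right hT1 (by omega)
    rw [e1]
    have e3 := Nat.mul_le_mul_left L e2
    nlinarith

end Pool.Agent.Helper20K9.DC
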