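import Pool.Agent.Helper20K9.DC.Alg

/-! Counting: the descent on `q`-adic valuations. -/

open Finset

namespace Pool.Agent.Helper20K9.DC

open PowerSeries

open Classical in
/-- number of elements of `B` up to `Y` -/
noncomputable def cnt (B : Set ℕ) (Y : ℕ) : ℕ := ((range (Y + 1)).filter (· ∈ B)).card

lemma cnt_mono_set {B C : Set ℕ} (h : B ⊆ C) (Y : ℕ) : cnt B Y ≤ cnt C Y := by
  classical
  unfold cnt
  exact card_le_card (Finset.monotone_filter_right _ fun x _ hx => h hx)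

lemma cnt_le_of {B C : Set ℕ} {Y : ℕ} (h : ∀ x ≤ Y, x ∈ B → x ∈ C) : cnt B Y ≤ cnt C Y := by
  classical
  unfold cnt
  refine card_le_card fun x hx => ?_
  simp only [mem_filter, mem_range] at hx ⊢
  exact ⟨hx.1, h x (by omega) hx.2⟩

lemma cnt_mono (B : Set ℕ) {Y Z : ℕ} (h : Y ≤ Z) : cnt B Y ≤ cnt B Z := by
  classical
  unfold cnt
  exact card_le_card (Finset.filter_subset_filter _ (range_mono (by omega)))

lemma cnt_union (B C : Set ℕ) (Y : ℕ) : cnt (B ∪ C) Y ≤ cnt B Y + cnt C Y := by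
  classical
  unfold cnt
  refine le_trans (card_le_card ?_) (card_union_le _ _)
  intro x hx
  simp only [mem_filter, mem_range, mem_union, Set.mem_union] at hx ⊢
  tauto

lemma cnt_Pl (B C : Set ℕ) (Y : ℕ) : cnt (Pl B C) Y ≤ cnt B Y * cnt C Y := by
  classical
  unfold cnt
  rw [← card_product]
  refine le_trans (card_le_card ?_) (card_image_le (f := fun p : ℕ × ℕ => p.1 + p.2))
  intro x hx
  simp only [mem_filter, mem_range] at hx
  obtain ⟨hx1, a, ha, b, hb, rfl⟩ := hx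
  simp only [mem_image, mem_product, mem_filter, mem_range]
  exact ⟨(a, b), ⟨⟨by dsimp; omega, ha⟩, ⟨by dsimp; omega, hb⟩⟩, rfl⟩

lemma cnt_SS (A : Set ℕ) (k Y : ℕ) : cnt (SS A k) Y ≤ cnt A Y ^ k := by
  induction k with
  | zero =>
    classical
    unfold cnt
    rw [pow_zero]
    refine le_trans (card_le_card (t := {0}) ?_) (by simp)
    intro x hx
    simp only [mem_filter, mem_range] at hx
    have : x = 0 := hx.2
    simp [this]
  | succ k ih =>
    have h : SS A (k + 1) = Pl A (SS A k) := rfl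
    rw [h, pow_succ, mul_comm]
    exact le_trans (cnt_Pl _ _ _) (Nat.mul_le_mul_left _ ih)

lemma cnt_scale (B : Set ℕ) {r : ℕ} (hr : 0 < r) (Y : ℕ) :
    cnt {v | r * v ∈ B} Y ≤ cnt B (r * Y) := by
  classical
  unfold cnt
  refine card_le_card_of_injOn (fun v => r * v) ?_ ?_
  · intro v hv
    simp only [coe_filter, mem_range, Set.mem_ofPred_eq] at hv ⊢
    refine ⟨?_, hv.2⟩
    have : r * v ≤ r * Y := Nat.mul_le_mul_left r (by omega)
    omega
  · intro a _ b _ h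
    exact Nat.eq_of_mul_eq_mul_left hr h

lemma cnt_pos {A : Set ℕ} (h0 : 0 ∈ A) (Y : ℕ) : 1 ≤ cnt A Y := by
  classical
  unfold cnt
  rw [Nat.one_le_iff_ne_zero, ← Nat.pos_iff_ne_zero, card_pos]
  exact ⟨0, by simp [h0]⟩

lemma cnt_empty {B : Set ℕ} (h : ∀ v, v ∉ B) (Y : ℕ) : cnt B Y = 0 := by
  classical
  unfold cnt
  rw [card_eq_zero, filter_eq_empty_iff]
  intro x _
  exact h x

variable {R : Type*} [CommRing R] [IsDomain R]

lemma step {A : Set ℕ} (h0 : 0 ∈ A) (P : ℕ → R) (hA : ∀ v, P (v + 1) ≠ P v → v + 1 ∈ A)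
    (q : ℕ) (hqR : Prime (q : R)) (a : ℕ → R) (D : ℕ) (B0 : Set ℕ)
    (hB0 : ∀ u ∉ B0, ∑ i ∈ range (D + 1), a i * cum (ser P ^ i) u = 0)
    (haD : ¬ (q : R) ∣ a D) (j : ℕ) (hj : ∀ i < D, (q : R) ^ ((D - i) * j + 1) ∣ a i) {u : ℕ}
    (hu : u ∉ B0 ∪ Pl (SS A (D - 1)) {v | ¬ (q : R) ^ j ∣ P v}) :
    (q : R) ∣ cum (ser (fun v => quo ((q : R) ^ j) (P v)) ^ D) u := by
  have hu0 : u ∉ B0 := fun h => hu (Or.inl h)
  have hu1 : u ∉ Pl (SS A (D - 1)) {v | ¬ (q : R) ^ j ∣ P v} := fun h => hu (Or.inr h)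
  have key := hB0 u hu0
  have e : ∀ i ∈ range (D + 1), a i * cum (ser P ^ i) u =
      a i * (((q : R) ^ j) ^ i * cum (ser (fun v => quo ((q : R) ^ j) (P v)) ^ i) u) := by
    intro i hi
    rw [div_lemma h0 P hA ((q : R) ^ j) (D := D) (i := i) (by have := mem_range.1 hi; omega) hu1]
  rw [Finset.sum_congr rfl e, Finset.sum_range_succ] at key
  set x := cum (ser (fun v => quo ((q : R) ^ j) (P v)) ^ D) u with hx
  have h1 : (q : R) ^ (j * D + 1) ∣ ∑ i ∈ range D,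
      a i * (((q : R) ^ j) ^ i * cum (ser (fun v => quo ((q : R) ^ j) (P v)) ^ i) u) := by
    refine Finset.dvd_sum fun i hi => ?_
    have hi' := mem_range.1 hi
    rw [← mul_assoc]
    apply Dvd.dvd.mul_right
    rw [← pow_mul]
    have h2 := mul_dvd_mul (hj i hi') (dvd_refl ((q : R) ^ (j * i)))
    rw [← pow_add] at h2
    convert h2 using 2
    obtain ⟨d, rfl⟩ := Nat.exists_eq_add_of_le hi'.le
    rw [Nat.add_sub_cancel_left]
    ring
  have h3 : (q : R) ^ (j * D + 1) ∣ a D * (((q : R) ^ j) ^ D * x) := by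
    rw [eq_neg_of_add_eq_zero_right key]
    exact (dvd_neg).2 h1
  rw [← pow_mul, show a D * ((q : R) ^ (j * D) * x) = (q : R) ^ (j * D) * (a D * x) by ring,
    pow_succ, mul_dvd_mul_iff_left (pow_ne_zero _ hqR.ne_zero)] at h3
  exact (hqR.dvd_or_dvd h3).resolve_left haD

theorem cntE {A : Set ℕ} (h0 : 0 ∈ A) (P : ℕ → R) (hA : ∀ v, P (v + 1) ≠ P v → v + 1 ∈ A)
    (q : ℕ) (hq : q.Prime) (hqR : Prime (q : R)) (a : ℕ → R) (D : ℕ) (hD1 : 1 ≤ D) (B0 : Set ℕ)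
    (hB0 : ∀ u ∉ B0, ∑ i ∈ range (D + 1), a i * cum (ser P ^ i) u = 0)
    (haD : ¬ (q : R) ∣ a D) (L Y : ℕ) (hB0c : ∀ Z ≤ Y, cnt B0 Z ≤ L * cnt A (Z + L) ^ D)
    (n : ℕ) (hD : D ≤ q ^ n) (J : ℕ)
    (hJ : ∀ j < J, ∀ i < D, (q : R) ^ ((D - i) * j + 1) ∣ a i) :
    ∀ j ≤ J, ∀ X, (q ^ n) ^ j * X ≤ Y → cnt {v | ¬ (q : R) ^ j ∣ P v} X ≤
      3 ^ j * L * cnt A ((q ^ n) ^ j * X + L) ^ (j * (q ^ n - 1) + 1) := by
  intro j
  set r := q ^ n with hr
  have hr1 : 1 ≤ r := Nat.one_le_pow _ _ hq.pos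
  induction j with
  | zero =>
    intro _ X _
    have : cnt {v | ¬ (q : R) ^ 0 ∣ P v} X = 0 := cnt_empty (fun v hv =>
      (show ¬ (q : R) ^ 0 ∣ P v from hv) (by simp)) X
    omega
  | succ j ih =>
    intro hjJ X hX
    have hjJ' : j < J := hjJ
    set T := cnt A (r ^ (j + 1) * X + L) with hT
    have hT1 : 1 ≤ T := cnt_pos h0 _
    have hrr : r ^ (j + 1) * X = r ^ j * (r * X) := by ring
    have hrX : r * X ≤ r ^ (j + 1) * X := by
      rw [pow_succ]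
      have : 1 ≤ r ^ j := Nat.one_le_pow _ _ hr1
      nlinarith [Nat.mul_le_mul_right (r * X) this]
    have hX' : r ^ j * X ≤ r ^ (j + 1) * X := by
      rw [pow_succ, mul_assoc]
      exact Nat.mul_le_mul_left _ (by nlinarith)
    have e1 := ih hjJ'.le X (le_trans hX' hX)
    have e2 := ih hjJ'.le (r * X) (by rw [← hrr]; exact hX)
    rw [← hrr, ← hT] at e2
    set κ := j * (r - 1) + 1 with hκ
    -- the inclusion
    have hB := fun u (hu : u ∉ B0 ∪ Pl (SS A (D - 1)) {v | ¬ (q : R) ^ j ∣ P v}) =>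
      step h0 P hA q hqR a D B0 hB0 haD j (hJ j hjJ') hu
    have hs : Sup A 1 (ser (fun v => quo ((q : R) ^ j) (P v))) :=
      ser_sup h0 _ fun v hv => hA v fun h => hv (by rw [h])
    have incl : {v | ¬ (q : R) ^ (j + 1) ∣ P v} ⊆ {v | ¬ (q : R) ^ j ∣ P v} ∪
        {v | r * v ∈ Pl (SS A (r - D))
          (B0 ∪ Pl (SS A (D - 1)) {v | ¬ (q : R) ^ j ∣ P v})} := by
      intro v hv
      by_cases hvj : (q : R) ^ j ∣ P v
      · right
        refine nil_lemma q hq hqR (fun v => quo ((q : R) ^ j) (P v)) hs hD _ hB ?_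
        intro hd
        apply hv
        obtain ⟨c, hc⟩ := hd
        have := quo_spec hvj
        rw [this, hc]
        exact ⟨c, by ring⟩
      · left; exact hvj
    have c1 : cnt {v | ¬ (q : R) ^ (j + 1) ∣ P v} X ≤ cnt {v | ¬ (q : R) ^ j ∣ P v} X +
        cnt A (r * X) ^ (r - D) * (cnt B0 (r * X) +
          cnt A (r * X) ^ (D - 1) * cnt {v | ¬ (q : R) ^ j ∣ P v} (r * X)) := by
      refine le_trans (cnt_mono_set incl X) (le_trans (cnt_union _ _ _) ?_)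
      refine Nat.add_le_add_left ?_ _
      refine le_trans (cnt_scale _ (by omega) X) (le_trans (cnt_Pl _ _ _) ?_)
      refine Nat.mul_le_mul (cnt_SS _ _ _) (le_trans (cnt_union _ _ _) ?_)
      refine Nat.add_le_add_left ?_ _
      exact le_trans (cnt_Pl _ _ _) (Nat.mul_le_mul_right _ (cnt_SS _ _ _))
    have c2 : cnt A (r * X) ≤ T := cnt_mono A (by omega)
    have c3 : cnt B0 (r * X) ≤ L * T ^ D := by
      refine le_trans (hB0c (r * X) (le_trans hrX hX)) ?_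
      exact Nat.mul_le_mul_left _ (Nat.pow_le_pow_left (cnt_mono A (by omega)) _)
    have c4 : cnt {v | ¬ (q : R) ^ j ∣ P v} X ≤ 3 ^ j * L * T ^ κ := by
      refine le_trans e1 (Nat.mul_le_mul_left _ (Nat.pow_le_pow_left (cnt_mono A (by omega)) _))
    have c5 : cnt {v | ¬ (q : R) ^ (j + 1) ∣ P v} X ≤ 3 ^ j * L * T ^ κ +
        T ^ (r - D) * (L * T ^ D + T ^ (D - 1) * (3 ^ j * L * T ^ κ)) := by
      refine le_trans c1 (Nat.add_le_add c4 (Nat.mul_le_mul (Nat.pow_le_pow_left c2 _) ?_))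
      refine Nat.add_le_add c3 (Nat.mul_le_mul (Nat.pow_le_pow_left c2 _) e2)
    refine le_trans c5 ?_
    have e3 : T ^ (r - D) * (L * T ^ D + T ^ (D - 1) * (3 ^ j * L * T ^ κ)) =
        L * T ^ r + 3 ^ j * L * T ^ (κ + (r - 1)) := by
      have a1 : T ^ r = T ^ (r - D) * T ^ D := by rw [← pow_add]; congr 1; omega
      have a2 : T ^ (κ + (r - 1)) = T ^ (r - D) * T ^ (D - 1) * T ^ κ := by
        rw [← pow_add, ← pow_add]; congr 1; omega
      rw [a1, a2]; ring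
    rw [e3]
    have e4 : (j + 1) * (r - 1) + 1 = κ + (r - 1) := by rw [hκ]; ring
    rw [e4]
    have b1 : T ^ κ ≤ T ^ (κ + (r - 1)) := Nat.pow_le_pow_right hT1 (by omega)
    have b2 : T ^ r ≤ T ^ (κ + (r - 1)) := Nat.pow_le_pow_right hT1 (by omega)
    have b3 : L * T ^ r ≤ 3 ^ j * L * T ^ (κ + (r - 1)) := by
      have : 1 ≤ 3 ^ j := Nat.one_le_pow _ _ (by norm_num)
      calc L * T ^ r ≤ L * T ^ (κ + (r - 1)) := Nat.mul_le_mul_left _ b2
        _ = 1 * (L * T ^ (κ + (r - 1))) := by ring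
        _ ≤ 3 ^ j * (L * T ^ (κ + (r - 1))) := Nat.mul_le_mul_right _ this
        _ = _ := by ring
    have b4 : 3 ^ j * L * T ^ κ ≤ 3 ^ j * L * T ^ (κ + (r - 1)) := Nat.mul_le_mul_left _ b1
    have b5 : 3 ^ (j + 1) * L * T ^ (κ + (r - 1)) =
        3 * (3 ^ j * L * T ^ (κ + (r - 1))) := by ring
    rw [b5]
    omega

omit [IsDomain R] in
/-- In the Eisenstein case every `u` is exceptional. -/
lemma all_exceptional {A : Set ℕ} (h0 : 0 ∈ A) (P : ℕ → R)
    (hA : ∀ v, P (v + 1) ≠ P v → v + 1 ∈ A)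
    (q : ℕ) (a : ℕ → R) (D : ℕ) (hD2 : 2 ≤ D) (B0 : Set ℕ)
    (hB0 : ∀ u ∉ B0, ∑ i ∈ range (D + 1), a i * cum (ser P ^ i) u = 0) (e : ℕ)
    (hj : ∀ i < D, (q : R) ^ ((D - i) * e + 1) ∣ a i)
    (ha0 : ¬ (q : R) ^ (D * e + 2) ∣ a 0) (u : ℕ) :
    u ∈ B0 ∪ Pl (SS A (D - 1)) {v | ¬ (q : R) ^ (e + 1) ∣ P v} := by
  by_contra hu
  have hu0 : u ∉ B0 := fun h => hu (Or.inl h)
  have hu1 : u ∉ Pl (SS A (D - 1)) {v | ¬ (q : R) ^ (e + 1) ∣ P v} := fun h => hu (Or.inr h)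
  have key := hB0 u hu0
  have e' : ∀ i ∈ range (D + 1), a i * cum (ser P ^ i) u =
      a i * (((q : R) ^ (e + 1)) ^ i *
        cum (ser (fun v => quo ((q : R) ^ (e + 1)) (P v)) ^ i) u) := by
    intro i hi
    rw [div_lemma h0 P hA ((q : R) ^ (e + 1)) (D := D) (i := i)
      (by have := mem_range.1 hi; omega) hu1]
  rw [Finset.sum_congr rfl e', Finset.sum_range_succ'] at key
  rw [pow_zero, pow_zero, cum_one, one_mul, mul_one] at key
  apply ha0
  rw [eq_neg_of_add_eq_zero_right key]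
  refine (dvd_neg).2 (Finset.dvd_sum fun i hi => ?_)
  have hi' := mem_range.1 hi
  rw [← mul_assoc]
  apply Dvd.dvd.mul_right
  rw [← pow_mul]
  rcases Nat.lt_or_ge (i + 1) D with h | h
  · have h2 := mul_dvd_mul (hj (i + 1) h) (dvd_refl ((q : R) ^ ((e + 1) * (i + 1))))
    rw [← pow_add] at h2
    refine dvd_trans (pow_dvd_pow _ ?_) h2
    obtain ⟨d, rfl⟩ := Nat.exists_eq_add_of_le h.le
    rw [Nat.add_sub_cancel_left]
    nlinarith
  · have : i + 1 = D := by omega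
    rw [this]
    apply Dvd.dvd.mul_left
    apply pow_dvd_pow
    nlinarith

end Pool.Agent.Helper20K9.DC
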