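import Pool.Agent.Helper20K9.DC.Core

/-! From the descent to statements on digits. -/

open Finset

namespace Pool.Agent.Helper20K9.DC

/-- digit number `k` -/
noncomputable def dig (b : ℕ) (α : ℝ) (k : ℕ) : ℤ := ⌊(b : ℝ) ^ k * α⌋ % b

/-- number of `k` with `1 ≤ k ≤ N` and digits `k + l`, `k` different -/
noncomputable def chg (b l : ℕ) (α : ℝ) (N : ℕ) : ℕ :=
  ((Icc 1 N).filter fun k => dig b α (k + l) ≠ dig b α k).card

lemma dig_succ (b : ℕ) (hb : 0 < b) (α : ℝ) (k : ℕ) :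
    dig b α (k + 1) = ⌊(b : ℝ) ^ (k + 1) * α⌋ - b * ⌊(b : ℝ) ^ k * α⌋ := by
  have h := floor_digit b hb ((b : ℝ) ^ k * α)
  rw [show (b : ℝ) * ((b : ℝ) ^ k * α) = (b : ℝ) ^ (k + 1) * α by ring] at h
  have e : ⌊(b : ℝ) ^ (k + 1) * α⌋ =
      (⌊(b : ℝ) ^ (k + 1) * α⌋ - b * ⌊(b : ℝ) ^ k * α⌋) + b * ⌊(b : ℝ) ^ k * α⌋ := by ring
  unfold dig
  conv_lhs => rw [e]
  rw [Int.add_mul_emod_self_left]
  exact Int.emod_eq_of_lt h.1 h.2

lemma cc_succ (b l : ℕ) (hb : 0 < b) (α : ℝ) (v : ℕ) :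
    cc b l α (v + 1) = dig b α (v + 1 + l) - dig b α (v + 1) := by
  rw [show v + 1 + l = (v + l) + 1 by ring, dig_succ b hb, dig_succ b hb]
  show NN b l α (v + 1) - b * NN b l α v = _
  unfold NN
  rw [show v + 1 + l = v + l + 1 by ring]
  ring

lemma cnt_AA (b l : ℕ) (hb : 0 < b) (α : ℝ) (Y : ℕ) : cnt (AA b l α) Y ≤ 1 + chg b l α Y := by
  classical
  unfold cnt chg
  have : ((range (Y + 1)).filter (· ∈ AA b l α)) ⊆
      {0} ∪ ((Icc 1 Y).filter fun k => dig b α (k + l) ≠ dig b α k) := by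
    intro v hv
    simp only [mem_filter, mem_range] at hv
    obtain ⟨hv1, hv2⟩ := hv
    simp only [mem_union, mem_singleton, mem_filter, mem_Icc]
    cases v with
    | zero => left; rfl
    | succ v =>
      right
      refine ⟨⟨by omega, by omega⟩, ?_⟩
      rcases hv2 with h | h
      · omega
      · rw [cc_succ b l hb] at h
        exact fun h' => h (by rw [h', sub_self])
  refine le_trans (card_le_card this) (le_trans (card_union_le _ _) ?_)
  simp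

lemma exists_c (C1 D R0 : ℕ) : ∃ c : ℕ, D ≤ c ∧ C1 * (R0 + c + 1) ^ D < 2 ^ (c - D) := by
  have h := tendsto_pow_const_div_const_pow_of_one_lt D (r := (2 : ℝ)) (by norm_num)
  have hpos : (0 : ℝ) < 1 / ((C1 : ℝ) * 2 ^ D * 2 ^ (R0 + 1) + 1) := by positivity
  have h2 := (h.eventually (gt_mem_nhds hpos)).and (Filter.eventually_ge_atTop (D + R0 + 1))
  obtain ⟨n, hn1, hn2⟩ := h2.exists
  obtain ⟨c, rfl⟩ := Nat.exists_eq_add_of_le hn2
  refine ⟨D + c, by omega, ?_⟩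
  have e1 : R0 + (D + c) + 1 = D + R0 + 1 + c := by ring
  rw [e1, show D + c - D = c by omega]
  have h3 : ((D + R0 + 1 + c : ℕ) : ℝ) ^ D * ((C1 : ℝ) * 2 ^ D * 2 ^ (R0 + 1) + 1) <
      2 ^ (D + R0 + 1 + c) := by
    rw [lt_div_iff₀ (by positivity), div_mul_eq_mul_div, div_lt_one (by positivity)] at hn1
    exact hn1
  have h4 : (2 : ℝ) ^ (D + R0 + 1 + c) = 2 ^ D * 2 ^ (R0 + 1) * 2 ^ c := by
    rw [← pow_add, ← pow_add]; congr 1
  rw [h4] at h3
  have h5 : (2 : ℝ) ^ D * 2 ^ (R0 + 1) * ((C1 : ℝ) * ((D + R0 + 1 + c : ℕ) : ℝ) ^ D) <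
      2 ^ D * 2 ^ (R0 + 1) * 2 ^ c := by
    have : (0 : ℝ) ≤ ((D + R0 + 1 + c : ℕ) : ℝ) ^ D := by positivity
    nlinarith
  have h6 := lt_of_mul_lt_mul_left h5 (by positivity)
  exact_mod_cast h6

/-- choice of the window length -/
lemma window (b : ℕ) (hb : 2 ≤ b) (C1 D R0 : ℕ) : ∃ C : ℕ, ∀ N : ℕ, 2 ≤ N →
    ∃ L : ℕ, C1 * (R0 * N + L + 1) ^ D < b ^ L ∧ (L : ℝ) ≤ C * Real.log N ∧ L ≤ C * N := by
  obtain ⟨c, hcD, hc⟩ := exists_c C1 D R0
  refine ⟨3 * c, fun N hN => ?_⟩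
  set lam := Nat.log 2 N + 1 with hlam
  have hN2 : N < 2 ^ lam := Nat.lt_pow_succ_log_self (by norm_num) N
  have hlam1 : 1 ≤ lam := by omega
  refine ⟨c * lam, ?_, ?_, ?_⟩
  · have h1 : lam < 2 ^ lam := Nat.lt_two_pow_self
    have h2 : R0 * N + c * lam + 1 ≤ (R0 + c + 1) * 2 ^ lam := by
      have a1 : R0 * N ≤ R0 * 2 ^ lam := Nat.mul_le_mul_left _ hN2.le
      have a2 : c * lam ≤ c * 2 ^ lam := Nat.mul_le_mul_left _ h1.le
      have a3 : 1 ≤ 2 ^ lam := Nat.one_le_two_pow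
      nlinarith
    calc C1 * (R0 * N + c * lam + 1) ^ D ≤ C1 * ((R0 + c + 1) * 2 ^ lam) ^ D :=
          Nat.mul_le_mul_left _ (Nat.pow_le_pow_left h2 D)
      _ = (C1 * (R0 + c + 1) ^ D) * 2 ^ (D * lam) := by
          rw [mul_pow, ← pow_mul, mul_comm lam D]; ring
      _ < 2 ^ (c - D) * 2 ^ (D * lam) := Nat.mul_lt_mul_of_pos_right hc (by positivity)
      _ ≤ 2 ^ ((c - D) * lam) * 2 ^ (D * lam) := by
          refine Nat.mul_le_mul_right _ (Nat.pow_le_pow_right (by norm_num) ?_)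
          exact Nat.le_mul_of_pos_right _ hlam1
      _ = 2 ^ (c * lam) := by
          rw [← pow_add, ← add_mul, Nat.sub_add_cancel hcD]
      _ ≤ b ^ (c * lam) := Nat.pow_le_pow_left hb _
  · have hlog2 := Real.log_two_gt_d9
    have hNR : (2 : ℝ) ≤ N := by exact_mod_cast hN
    have hlogN : Real.log 2 ≤ Real.log N := Real.log_le_log (by norm_num) hNR
    have h3 : ((Nat.log 2 N : ℕ) : ℝ) ≤ Real.log N / Real.log 2 := by
      have := Real.natLog_le_logb N 2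
      rw [Real.logb] at this
      exact_mod_cast this
    have h4 : ((Nat.log 2 N : ℕ) : ℝ) * Real.log 2 ≤ Real.log N := by
      rwa [le_div_iff₀ (by linarith)] at h3
    have h5 : (lam : ℝ) ≤ 3 * Real.log N := by
      rw [hlam]
      push_cast
      have h6 : (0 : ℝ) ≤ (Nat.log 2 N : ℕ) := by positivity
      nlinarith
    push_cast
    have : (0 : ℝ) ≤ c := by positivity
    nlinarith
  · have : Nat.log 2 N < N := Nat.log_lt_self 2 (by omega)
    have : lam ≤ N := by omega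
    nlinarith [Nat.mul_le_mul_left c this]

section root

open Polynomial

lemma root_sum (Q : ℤ[X]) (α m : ℝ) (mz : ℤ) (hm : (mz : ℝ) = m) (h : aeval α Q = 0) :
    ∑ i ∈ range (Q.natDegree + 1), ((Q.coeff i * mz ^ (Q.natDegree - i) : ℤ) : ℝ) *
      (m * α) ^ i = 0 := by
  rw [aeval_eq_sum_range] at h
  have e : ∀ i ∈ range (Q.natDegree + 1), ((Q.coeff i * mz ^ (Q.natDegree - i) : ℤ) : ℝ) *
      (m * α) ^ i = m ^ Q.natDegree * (Q.coeff i • α ^ i) := by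
    intro i hi
    have hi' := mem_range.1 hi
    rw [zsmul_eq_mul, show m ^ Q.natDegree = m ^ (Q.natDegree - i) * m ^ i by
      rw [← pow_add]; congr 1; omega]
    push_cast
    rw [hm, mul_pow]
    ring
  rw [Finset.sum_congr rfl e, ← Finset.mul_sum, h, mul_zero]

variable (b l : ℕ) (hb : 2 ≤ b) (α : ℝ) (Q : ℤ[X])

include hb in
theorem partA (hQ : 0 < Q.natDegree) (hα : aeval α Q = 0) (q e n : ℕ) (hq : q.Prime)
    (hqb : ¬ q ∣ b) (hlead : ¬ (q : ℤ) ∣ Q.leadingCoeff)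
    (hqe : (q : ℤ) ^ e ∣ (b : ℤ) ^ l - 1) (hn : Q.natDegree ≤ q ^ n) :
    ∃ C : ℕ, ∀ N : ℕ, 2 ≤ N → (cnt {v | ¬ (q : ℤ) ^ e ∣ NN b l α v} N : ℝ) ≤
      C * (1 + (chg b l α (C * N) : ℝ)) ^ (e * (q ^ n - 1) + 1) * Real.log N := by
  have hb0 : 0 < b := by omega
  set D := Q.natDegree with hD
  have hroot := root_sum Q α ((b : ℝ) ^ l - 1) ((b : ℤ) ^ l - 1) (by push_cast; ring) hα
  obtain ⟨C1, hC1⟩ := core b l hb α (fun i => Q.coeff i * ((b : ℤ) ^ l - 1) ^ (D - i)) D hQ hroot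
  set R0 := (q ^ n) ^ e with hR0
  obtain ⟨C2, hC2⟩ := window b hb C1 D R0
  refine ⟨3 ^ e * (C2 + 1) + (R0 + C2), fun N hN => ?_⟩
  obtain ⟨L, hL1, hL2, hL3⟩ := hC2 N hN
  have hJ : ∀ j < e, ∀ i < D, (q : ℤ) ^ ((D - i) * j + 1) ∣
      Q.coeff i * ((b : ℤ) ^ l - 1) ^ (D - i) := by
    intro j hj i hi
    apply Dvd.dvd.mul_left
    refine dvd_trans (pow_dvd_pow _ ?_) ((pow_mul (q : ℤ) e (D - i)) ▸ pow_dvd_pow_of_dvd hqe (D - i))
    have h1 : (D - i) * (j + 1) ≤ (D - i) * e := Nat.mul_le_mul_left _ hj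
    have h2 : 1 ≤ D - i := by omega
    nlinarith
  have hlead' : ¬ (q : ℤ) ∣ Q.coeff D * ((b : ℤ) ^ l - 1) ^ (D - D) := by
    rw [Nat.sub_self, pow_zero, mul_one]
    exact hlead
  have h := (hC1 L (R0 * N) hL1 q hq hqb hlead' n hn).1 e hJ N le_rfl
  set κ := e * (q ^ n - 1) + 1 with hκ
  set C := 3 ^ e * (C2 + 1) + (R0 + C2) with hC
  have h2 : cnt (AA b l α) (R0 * N + L) ≤ 1 + chg b l α (C * N) := by
    refine le_trans (cnt_mono _ ?_) (cnt_AA b l hb0 α _)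
    rw [hC]
    have : 0 ≤ 3 ^ e * (C2 + 1) * N := by positivity
    nlinarith
  have h3 : (cnt {v | ¬ (q : ℤ) ^ e ∣ NN b l α v} N : ℝ) ≤
      3 ^ e * L * (1 + (chg b l α (C * N) : ℝ)) ^ κ := by
    have h4 : cnt {v | ¬ (q : ℤ) ^ e ∣ NN b l α v} N ≤
        3 ^ e * L * (1 + chg b l α (C * N)) ^ κ :=
      le_trans h (Nat.mul_le_mul_left _ (Nat.pow_le_pow_left h2 _))
    exact_mod_cast h4
  have hlog : 0 ≤ Real.log N := Real.log_nonneg (by
    have : (2 : ℝ) ≤ N := by exact_mod_cast hN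
    linarith)
  set W : ℝ := (1 + (chg b l α (C * N) : ℝ)) ^ κ with hW
  have hW0 : 0 ≤ W := by positivity
  have hCR : (3 : ℝ) ^ e * C2 ≤ (C : ℝ) := by
    rw [hC]; push_cast
    have : (0 : ℝ) ≤ 3 ^ e := by positivity
    have : (0 : ℝ) ≤ R0 := by positivity
    have : (0 : ℝ) ≤ C2 := by positivity
    nlinarith
  calc (cnt {v | ¬ (q : ℤ) ^ e ∣ NN b l α v} N : ℝ) ≤ 3 ^ e * L * W := h3
    _ ≤ 3 ^ e * (C2 * Real.log N) * W := by gcongr
    _ = (3 ^ e * C2) * W * Real.log N := by ring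
    _ ≤ C * W * Real.log N := by gcongr

include hb in
theorem partB (hα : aeval α Q = 0) (q e n : ℕ) (hq : q.Prime) (hD2 : 2 ≤ Q.natDegree)
    (hqb : ¬ q ∣ b) (hlead : ¬ (q : ℤ) ∣ Q.leadingCoeff)
    (hcoef : ∀ i < Q.natDegree, (q : ℤ) ∣ Q.coeff i) (h0 : ¬ (q : ℤ) ^ 2 ∣ Q.coeff 0)
    (hqe : (q : ℤ) ^ e ∣ (b : ℤ) ^ l - 1) (hqe' : ¬ (q : ℤ) ^ (e + 1) ∣ (b : ℤ) ^ l - 1)
    (hn : Q.natDegree ≤ q ^ n) :
    ∃ C : ℕ, ∀ N : ℕ, 2 ≤ N → (N : ℝ) ≤
      C * (1 + (chg b l α N : ℝ)) ^ ((e + 1) * (q ^ n - 1) + Q.natDegree) * Real.log N := by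
  have hb0 : 0 < b := by omega
  set D := Q.natDegree with hD
  have hroot := root_sum Q α ((b : ℝ) ^ l - 1) ((b : ℤ) ^ l - 1) (by push_cast; ring) hα
  obtain ⟨C1, hC1⟩ := core b l hb α (fun i => Q.coeff i * ((b : ℤ) ^ l - 1) ^ (D - i)) D
    (by omega) hroot
  set R1 := (q ^ n) ^ (e + 1) with hR1
  have hR1pos : 0 < R1 := by have := hq.pos; positivity
  obtain ⟨C2, hC2⟩ := window b hb C1 D 1
  refine ⟨(1 + R1 * (1 + 3 ^ (e + 1))) * C2, fun N hN => ?_⟩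
  obtain ⟨L, hL1, hL2, hL3⟩ := hC2 N hN
  rw [one_mul] at hL1
  have hlead' : ¬ (q : ℤ) ∣ Q.coeff D * ((b : ℤ) ^ l - 1) ^ (D - D) := by
    rw [Nat.sub_self, pow_zero, mul_one]
    exact hlead
  have hj : ∀ i < D, (q : ℤ) ^ ((D - i) * e + 1) ∣ Q.coeff i * ((b : ℤ) ^ l - 1) ^ (D - i) := by
    intro i hi
    rw [pow_succ, mul_comm, mul_comm (D - i) e, pow_mul]
    exact mul_dvd_mul (hcoef i hi) (pow_dvd_pow_of_dvd hqe _)
  have ha0 : ¬ (q : ℤ) ^ (D * e + 2) ∣ Q.coeff 0 * ((b : ℤ) ^ l - 1) ^ (D - 0) := by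
    obtain ⟨m', hm'⟩ := hqe
    have hqz : Prime (q : ℤ) := Nat.prime_iff_prime_int.1 hq
    have hqm' : ¬ (q : ℤ) ∣ m' := by
      intro h
      apply hqe'
      rw [hm', pow_succ]
      exact mul_dvd_mul_left _ h
    rw [hm', Nat.sub_zero, mul_pow, ← pow_mul, pow_add, mul_comm e D,
      show Q.coeff 0 * ((q : ℤ) ^ (D * e) * m' ^ D) = (q : ℤ) ^ (D * e) * (Q.coeff 0 * m' ^ D) by
        ring]
    intro h
    have h2 := (mul_dvd_mul_iff_left (pow_ne_zero _ hqz.ne_zero)).1 h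
    have hcop : IsCoprime ((q : ℤ) ^ 2) (m' ^ D) := by
      apply IsCoprime.pow
      exact (Prime.coprime_iff_not_dvd hqz).2 hqm'
    exact h0 (hcop.dvd_of_dvd_mul_right h2)
  have hX := fun X => (hC1 L N hL1 q hq hqb hlead' n hn).2 e hD2 hj ha0 X
  set κ := (e + 1) * (q ^ n - 1) + D with hκ
  have hT : ∀ Y ≤ N, cnt (AA b l α) Y ≤ 1 + chg b l α N := fun Y hY =>
    le_trans (cnt_mono _ hY) (cnt_AA b l hb0 α _)
  have hnat : N ≤ (1 + R1 * (1 + 3 ^ (e + 1))) * L * (1 + chg b l α N) ^ κ := by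
    have hone : 1 ≤ (1 + chg b l α N) ^ κ := Nat.one_le_pow _ _ (by omega)
    rcases Nat.lt_or_ge N L with h | h
    · calc N ≤ L := h.le
        _ = 1 * L * 1 := by ring
        _ ≤ _ := by gcongr; omega
    · set X := (N - L) / R1 with hXdef
      have h1 : R1 * X ≤ N - L := Nat.mul_div_le _ _
      have h2 : N - L < R1 * (X + 1) := by
        have := Nat.lt_mul_div_succ (N - L) hR1pos
        exact this
      have h3 := hX X (by rw [← hR1]; omega)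
      rw [← hR1] at h3
      have h4 : X + 1 ≤ (1 + 3 ^ (e + 1)) * L * (1 + chg b l α N) ^ κ := by
        refine le_trans h3 (Nat.mul_le_mul_left _ (Nat.pow_le_pow_left (hT _ (by omega)) _))
      have h5 : N ≤ L + R1 * (X + 1) := by omega
      calc N ≤ L + R1 * (X + 1) := h5
        _ ≤ L * (1 + chg b l α N) ^ κ + R1 * ((1 + 3 ^ (e + 1)) * L * (1 + chg b l α N) ^ κ) := by
            refine Nat.add_le_add ?_ (Nat.mul_le_mul_left _ h4)
            exact Nat.le_mul_of_pos_right _ hone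
        _ = _ := by ring
  have hlog : 0 ≤ Real.log N := Real.log_nonneg (by
    have : (2 : ℝ) ≤ N := by exact_mod_cast hN
    linarith)
  set W : ℝ := (1 + (chg b l α N : ℝ)) ^ κ with hW
  have hW0 : 0 ≤ W := by positivity
  have h6 : (N : ℝ) ≤ ((1 + R1 * (1 + 3 ^ (e + 1)) : ℕ) : ℝ) * L * W := by
    have : (N : ℝ) ≤ (((1 + R1 * (1 + 3 ^ (e + 1))) * L * (1 + chg b l α N) ^ κ : ℕ) : ℝ) := by
      exact_mod_cast hnat
    rw [hW]
    push_cast at this ⊢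
    exact this
  calc (N : ℝ) ≤ ((1 + R1 * (1 + 3 ^ (e + 1)) : ℕ) : ℝ) * L * W := h6
    _ ≤ ((1 + R1 * (1 + 3 ^ (e + 1)) : ℕ) : ℝ) * (C2 * Real.log N) * W := by gcongr
    _ = _ := by push_cast; ring

end root

/-! ### Blocks -/

/-- block of `l` digits after position `v` -/
noncomputable def blk (b l : ℕ) (α : ℝ) (v : ℕ) : ℤ :=
  ⌊(b : ℝ) ^ (v + l) * α⌋ - (b : ℤ) ^ l * ⌊(b : ℝ) ^ v * α⌋

lemma blk_bounds (b l : ℕ) (hb : 0 < b) (α : ℝ) (v : ℕ) :
    0 ≤ blk b l α v ∧ blk b l α v < (b : ℤ) ^ l := by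
  have h := floor_digit (b ^ l) (by positivity) ((b : ℝ) ^ v * α)
  push_cast at h
  rw [show (b : ℝ) ^ l * ((b : ℝ) ^ v * α) = (b : ℝ) ^ (v + l) * α by ring] at h
  exact h

lemma blk_succ (b l : ℕ) (hb : 0 < b) (α : ℝ) (v : ℕ) :
    blk b (l + 1) α v = dig b α (v + l + 1) + b * blk b l α v := by
  rw [dig_succ b hb]
  unfold blk
  rw [show v + (l + 1) = v + l + 1 by ring]
  ring

lemma dig_bounds (b : ℕ) (hb : 0 < b) (α : ℝ) (k : ℕ) : 0 ≤ dig b α k ∧ dig b α k < b := by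
  unfold dig
  have : (0 : ℤ) < b := by exact_mod_cast hb
  exact ⟨Int.emod_nonneg _ this.ne', Int.emod_lt_of_pos _ this⟩

lemma blk_zero (b l : ℕ) (hb : 0 < b) (α : ℝ) (v : ℕ) (h : blk b l α v = 0) :
    ∀ i < l, dig b α (v + 1 + i) = 0 := by
  have hbz : (0 : ℤ) < b := by exact_mod_cast hb
  induction l with
  | zero => intro i hi; omega
  | succ l ih =>
    rw [blk_succ b l hb] at h
    have h1 := (dig_bounds b hb α (v + l + 1)).1
    have h2 := (blk_bounds b l hb α v).1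
    have h3 : 0 ≤ (b : ℤ) * blk b l α v := mul_nonneg hbz.le h2
    have h4 : dig b α (v + l + 1) = 0 := by linarith
    have h5 : (b : ℤ) * blk b l α v = 0 := by linarith
    have h6 : blk b l α v = 0 := (mul_eq_zero.1 h5).resolve_left hbz.ne'
    intro i hi
    rcases Nat.lt_or_ge i l with h7 | h7
    · exact ih h6 i h7
    · have : i = l := by omega
      rw [this, show v + 1 + l = v + l + 1 by ring]
      exact h4

lemma blk_max (b l : ℕ) (hb : 0 < b) (α : ℝ) (v : ℕ) (h : blk b l α v = (b : ℤ) ^ l - 1) :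
    ∀ i < l, dig b α (v + 1 + i) = (b : ℤ) - 1 := by
  have hbz : (0 : ℤ) < b := by exact_mod_cast hb
  induction l with
  | zero => intro i hi; omega
  | succ l ih =>
    rw [blk_succ b l hb] at h
    have h1 := (dig_bounds b hb α (v + l + 1)).2
    have h2 := (blk_bounds b l hb α v).2
    have h3 : (b : ℤ) * blk b l α v ≤ b * ((b : ℤ) ^ l - 1) :=
      mul_le_mul_of_nonneg_left (by linarith) hbz.le
    have h4 : dig b α (v + l + 1) = (b : ℤ) - 1 := by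
      have : (b : ℤ) ^ (l + 1) = b * (b : ℤ) ^ l := by ring
      rw [this] at h
      linarith
    have h5 : blk b l α v = (b : ℤ) ^ l - 1 := by
      have : (b : ℤ) ^ (l + 1) = b * (b : ℤ) ^ l := by ring
      rw [this, h4] at h
      have h6 : (b : ℤ) * (blk b l α v - ((b : ℤ) ^ l - 1)) = 0 := by linarith
      have := (mul_eq_zero.1 h6).resolve_left hbz.ne'
      linarith
    intro i hi
    rcases Nat.lt_or_ge i l with h7 | h7
    · exact ih h5 i h7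
    · have : i = l := by omega
      rw [this, show v + 1 + l = v + l + 1 by ring]
      exact h4

lemma block_of_dvd (b l : ℕ) (hb : 2 ≤ b) (hl : 1 ≤ l) (α : ℝ) (v : ℕ)
    (h : (b : ℤ) ^ l - 1 ∣ NN b l α v) :
    (∀ i < l, dig b α (v + 1 + i) = 0) ∨ (∀ i < l, dig b α (v + 1 + i) = (b : ℤ) - 1) := by
  have hb0 : 0 < b := by omega
  have e : NN b l α v = ((b : ℤ) ^ l - 1) * ⌊(b : ℝ) ^ v * α⌋ + blk b l α v := by
    unfold NN blk; ring
  have h1 : (b : ℤ) ^ l - 1 ∣ blk b l α v := by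
    rw [e] at h
    exact (Int.dvd_add_right (dvd_mul_right _ _)).1 h
  obtain ⟨h2, h3⟩ := blk_bounds b l hb0 α v
  have hm : (1 : ℤ) ≤ (b : ℤ) ^ l - 1 := by
    have : (2 : ℤ) ≤ b := by exact_mod_cast hb
    have h4 : (b : ℤ) ^ 1 ≤ (b : ℤ) ^ l := pow_le_pow_right₀ (by linarith) hl
    linarith
  obtain ⟨k, hk⟩ := h1
  have hk0 : 0 ≤ k := by
    by_contra hneg
    have : k ≤ -1 := by omega
    nlinarith
  have hk1 : k ≤ 1 := by
    by_contra hgt
    have : 2 ≤ k := by omega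
    nlinarith
  have : k = 0 ∨ k = 1 := by omega
  rcases this with rfl | rfl
  · left; exact blk_zero b l hb0 α v (by rw [hk, mul_zero])
  · right; exact blk_max b l hb0 α v (by rw [hk, mul_one])

lemma cnt_not_dvd (m : ℕ) (hm : 0 < m) (f : ℕ → ℤ) (N : ℕ) :
    cnt {v | ¬ (m : ℤ) ∣ f v} N ≤
      ∑ q ∈ m.primeFactors, cnt {v | ¬ (q : ℤ) ^ (m.factorization q) ∣ f v} N := by
  classical
  unfold cnt
  refine le_trans (card_le_card ?_) card_biUnion_le
  intro v hv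
  simp only [mem_filter, mem_range, Set.mem_ofPred_eq] at hv
  obtain ⟨hv1, hv2⟩ := hv
  simp only [mem_biUnion, mem_filter, mem_range, Set.mem_ofPred_eq]
  by_contra hcon
  push Not at hcon
  apply hv2
  rw [Int.natCast_dvd, Nat.dvd_iff_prime_pow_dvd_dvd]
  intro p k hp hpk
  rcases Nat.eq_zero_or_pos k with rfl | hk
  · simp
  have hpm : p ∣ m := dvd_trans (dvd_pow_self p hk.ne') hpk
  have hmem : p ∈ m.primeFactors := Nat.mem_primeFactors.2 ⟨hp, hpm, hm.ne'⟩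
  have h1 := hcon p hmem hv1
  have h2 : k ≤ m.factorization p := (hp.pow_dvd_iff_le_factorization hm.ne').1 hpk
  have h3 : ((p ^ m.factorization p : ℕ) : ℤ) ∣ f v := by exact_mod_cast h1
  rw [Int.natCast_dvd] at h3
  exact dvd_trans (pow_dvd_pow p h2) h3

open Polynomial in
/-- part A for all blocks -/
theorem partA_all (b l : ℕ) (hb : 2 ≤ b) (hl : 1 ≤ l) (D : ℕ) (hD1 : 1 ≤ D) :
    ∃ κ : ℕ, ∀ (α : ℝ) (Q : ℤ[X]), Q.natDegree = D → aeval α Q = 0 →
      IsCoprime Q.leadingCoeff ((b : ℤ) ^ l - 1) →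
      ∃ C : ℕ, ∀ N : ℕ, 2 ≤ N → (cnt {v | ¬ (b : ℤ) ^ l - 1 ∣ NN b l α v} N : ℝ) ≤
        C * (1 + (chg b l α (C * N) : ℝ)) ^ κ * Real.log N := by
  set m := b ^ l - 1 with hm
  have hbl : 2 ≤ b ^ l := le_trans hb (Nat.le_self_pow (by omega) b)
  have hmpos : 0 < m := by omega
  have hmz : ((m : ℕ) : ℤ) = (b : ℤ) ^ l - 1 := by
    rw [hm]; push_cast [show 1 ≤ b ^ l by omega]; ring
  set κ := ∑ q ∈ m.primeFactors, (m.factorization q * (q ^ D - 1) + 1) with hκ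
  refine ⟨κ, fun α Q hQ hα hcop => ?_⟩
  have hq : ∀ q ∈ m.primeFactors, ∃ C : ℕ, ∀ N : ℕ, 2 ≤ N →
      (cnt {v | ¬ (q : ℤ) ^ (m.factorization q) ∣ NN b l α v} N : ℝ) ≤
        C * (1 + (chg b l α (C * N) : ℝ)) ^ (m.factorization q * (q ^ D - 1) + 1) *
          Real.log N := by
    intro q hq
    have hqp := Nat.prime_of_mem_primeFactors hq
    have hqm := Nat.dvd_of_mem_primeFactors hq
    have hqb : ¬ q ∣ b := by
      intro h
      have h1 : q ∣ b ^ l := dvd_pow h (by omega)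
      have h2 : q ∣ 1 := by
        have := Nat.dvd_sub h1 hqm
        rwa [show b ^ l - m = 1 by omega] at this
      exact hqp.one_lt.ne' (Nat.dvd_one.1 h2)
    have hqmz : (q : ℤ) ∣ (b : ℤ) ^ l - 1 := by rw [← hmz]; exact_mod_cast hqm
    have hlead : ¬ (q : ℤ) ∣ Q.leadingCoeff := by
      intro h
      have h2 := hcop.isUnit_of_dvd' h hqmz
      exact (Nat.prime_iff_prime_int.1 hqp).not_isUnit h2
    have hpow : (q : ℤ) ^ (m.factorization q) ∣ (b : ℤ) ^ l - 1 := by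
      rw [← hmz]; exact_mod_cast Nat.ordProj_dvd m q
    refine partA b l hb α Q (by omega) hα q (m.factorization q) D hqp hqb hlead hpow ?_
    rw [hQ]
    exact (Nat.lt_pow_self hqp.one_lt).le
  choose! Cf hCf using hq
  set C := ∑ q ∈ m.primeFactors, Cf q with hC
  refine ⟨C, fun N hN => ?_⟩
  have hlog : 0 ≤ Real.log N := Real.log_nonneg (by
    have : (2 : ℝ) ≤ N := by exact_mod_cast hN
    linarith)
  have hset : {v | ¬ (b : ℤ) ^ l - 1 ∣ NN b l α v} = {v | ¬ ((m : ℕ) : ℤ) ∣ NN b l α v} := by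
    rw [hmz]
  rw [hset]
  have h1 : (cnt {v | ¬ ((m : ℕ) : ℤ) ∣ NN b l α v} N : ℝ) ≤
      ∑ q ∈ m.primeFactors, (cnt {v | ¬ (q : ℤ) ^ (m.factorization q) ∣ NN b l α v} N : ℝ) := by
    exact_mod_cast cnt_not_dvd m hmpos (NN b l α) N
  refine le_trans h1 ?_
  have h2 : ∀ q ∈ m.primeFactors,
      (cnt {v | ¬ (q : ℤ) ^ (m.factorization q) ∣ NN b l α v} N : ℝ) ≤
        Cf q * (1 + (chg b l α (C * N) : ℝ)) ^ κ * Real.log N := by
    intro q hq
    refine le_trans (hCf q hq N hN) ?_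
    have hle : Cf q ≤ C := Finset.single_le_sum (f := Cf) (fun _ _ => Nat.zero_le _) hq
    have hκle : m.factorization q * (q ^ D - 1) + 1 ≤ κ :=
      Finset.single_le_sum (f := fun q => m.factorization q * (q ^ D - 1) + 1)
        (fun _ _ => Nat.zero_le _) hq
    have hch : chg b l α (Cf q * N) ≤ chg b l α (C * N) := by
      unfold chg
      refine card_le_card (Finset.filter_subset_filter _ ?_)
      exact Finset.Icc_subset_Icc le_rfl (Nat.mul_le_mul_right _ hle)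
    have hchR : (chg b l α (Cf q * N) : ℝ) ≤ chg b l α (C * N) := by exact_mod_cast hch
    refine mul_le_mul_of_nonneg_right (mul_le_mul_of_nonneg_left ?_ (by positivity)) hlog
    calc (1 + (chg b l α (Cf q * N) : ℝ)) ^ (m.factorization q * (q ^ D - 1) + 1)
        ≤ (1 + (chg b l α (C * N) : ℝ)) ^ (m.factorization q * (q ^ D - 1) + 1) := by gcongr
      _ ≤ (1 + (chg b l α (C * N) : ℝ)) ^ κ := by
          refine pow_le_pow_right₀ ?_ hκle
          have : (0 : ℝ) ≤ chg b l α (C * N) := by positivity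
          linarith
  refine le_trans (Finset.sum_le_sum h2) ?_
  rw [← Finset.sum_mul, ← Finset.sum_mul, hC]
  push_cast
  exact le_rfl

end Pool.Agent.Helper20K9.DC
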